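import Mathlib
import Pool.Agent.Lib.MP_c82530_nt.AD.Stm
import Pool.Agent.Lib.MP_c82530_nt.AB.Stm

set_option autoImplicit false

namespace Pool.Agent.Lib.MP_c82530_nt.AE

open Set Pool.Agent.Lib.MP_c82530_nt Pool.Agent.Lib.MP_c82530_nt.AA Module

/-- a monotone family of rational subspaces of `ℂ`, indexed by the good spaces, with supports -/
def Adm (K : Submodule ℚ ℂ → Submodule ℚ ℂ) : Prop :=
  (∀ S S', Good S → Good S' → S ≤ S' → K S ≤ K S') ∧
  ∀ z : ℂ, ∃ fam : Finset (Submodule ℚ ℂ), ∀ H H', Good H → Good H' → z ∈ K H ⊔ K H' →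
    (∀ M ∈ fam, M ≤ H ∨ M ≤ H') ∧ ∀ T, Good T → (∀ M ∈ fam, M ≤ T) → z ∈ K T

/-- the primes whose logarithm is not in `K` have bounded weight -/
def Bd (K : Submodule ℚ ℂ) : Prop :=
  ∃ C : ℝ, ∀ P : Finset ℕ, (∀ p ∈ P, p.Prime) → EK K P ≤ C

/-- piece GR (adapted basis): `theorem p_gr (h : AD.S_star) : S_gr`.
Proof. For every good `S` let `L S` be the sum of all `KK S'`, `S' < S`, and choose a family in
`KK S` which is a basis of `KK S` modulo `L S` (e.g. a basis of a complement of `L S` in `KK S`); `ι`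
is the type of pairs (good `S`, index), `ℓ (S, j) = S`. By induction on the dimension of `S` the
space `KK S` is spanned by the members with label `≤ S`. Independence: in a relation let `S` be
maximal among the labels that occur and `u` the part of label `S`; then `u` is in `KK S` and in the
sum of the `KK S'` over the other labels `S'`, so by `AD.S_star` (with `A = S`, `R` the sum of all
labels) it is in the sum of the `KK (S ⊓ S')`, and `S ⊓ S' < S` as `S` is maximal; so `u` is in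
`L S` and all its coefficients vanish. -/
def S_gr : Prop := ∃ (ι : Type) (v : ι → ℂ) (ℓ : ι → Submodule ℚ ℂ), LinearIndependent ℚ v ∧
  (∀ i, v i ∈ KK (ℓ i) ∧ Good (ℓ i)) ∧
  ∀ S, Good S → KK S = Submodule.span ℚ (v '' {i | ℓ i ≤ S})

/-- piece ADM: `theorem p_adm (h : S_gr) : S_adm`.
Proof. Let `X` be the span of all `v i`. As `C ⊓ X` is finite dimensional there is a finite set `I`
of indices with `C ⊓ X ≤ N`, `N = span (v '' I)`. Take `C' = C ⊔ N`; then `C' ⊓ X = N` (modular law).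
If `z = c + x`, `c ∈ C'`, `x ∈ X` let `fam` be the set of the labels `ℓ i`, `i` in the support of
`x` but not in `I`. If `z = c' + h + h'` with `h ∈ KK H`, `h' ∈ KK H'` then `x - h - h'` is in
`C' ⊓ X = N`; so for `i` in the support of `x` and not in `I` we have `ℓ i ≤ H` or `ℓ i ≤ H'`. If all
these labels are `≤ T` then `x` is in `N ⊔ KK T`. -/
def S_adm : Prop := ∀ C : Submodule ℚ ℂ, FiniteDimensional ℚ C → ∃ C' : Submodule ℚ ℂ,
  FiniteDimensional ℚ C' ∧ C ≤ C' ∧ Adm (fun S => C' ⊔ KK S)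

/-- piece CMK (compactness), as `p_cmp` in AD/P_cmp.lean with `K W` for `KK W`; note that
`K W1 ⊓ K W2 ≤ K (W1 ⊓ W2)` for admissible `K` and good `W1, W2` (take `H = H' = W1` and
`H = H' = W2` in the definition, `T = W1 ⊓ W2`). -/
def S_cmk : Prop := ∀ K : Submodule ℚ ℂ → Submodule ℚ ℂ, Adm K →
  ∀ 𝒞 : Submodule ℚ ℂ → Prop, (∀ W1 W2, Good W2 → W1 ≤ W2 → 𝒞 W2 → 𝒞 W1) →
  (∀ W, Good W → 𝒞 W → ¬ Bd (K W)) → ∀ (M : ℕ) (C : ℝ) (x₀ : ℕ), ∃ P : Finset ℕ,
    (∀ p ∈ P, p.Prime ∧ x₀ < p) ∧ ∀ W, Good W → 𝒞 W → finrank ℚ W ≤ M → C ≤ EK (K W) P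

/-- piece RRK, as `p_rr` in AD/P_rr.lean with `K` for `KK`: the elements `y` of `F ⊔ K V` which are in
some `K S`, `S` good, form a subspace `N` (monotonicity), `N / K V` is finite dimensional; `R` is the
sum of `V` and of spaces `S` for finitely many generators. -/
def S_rrk : Prop := ∀ K : Submodule ℚ ℂ → Submodule ℚ ℂ, Adm K →
  ∀ V : Submodule ℚ ℂ, Good V → ∀ F : Submodule ℚ ℂ, FiniteDimensional ℚ F →
  ∃ R, Good R ∧ V ≤ R ∧ ∀ y ∈ F ⊔ K V, ∀ S, Good S → y ∈ K S → y ∈ K R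

/-- piece EXK, as `p_exv` in AD/P_exv.lean -/
def S_exk : Prop := ∀ K : Submodule ℚ ℂ, Bd K → ∀ ε : ℝ, 0 < ε → ∃ Q : Finset ℕ,
  (∀ p ∈ Q, p.Prime) ∧ ∀ P : Finset ℕ, (∀ p ∈ P, p.Prime ∧ p ∉ Q ∧
    ((Real.log (p : ℝ) : ℝ) : ℂ) ∉ K) → ∑ p ∈ P, (p : ℝ)⁻¹ ≤ ε

/-- piece GRP: `theorem p_grp (hzs : S_zs) : S_grp`.
Proof. Let `G` be the space of all finitely supported `a : ℕ →₀ ℚ`, supported on primes, with
`∑ a p * log p` in `C ⊔ KK ⊥`. The map from `G` to `(C ⊔ KK ⊥) / KK ⊥` is injective: if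
`∑ a p * log p` is algebraic then it is `0` by Lindemann (`log_transcendental`, as in `log_diff_alg`
of AA/Dens.lean: after clearing denominators it is a difference of logarithms of two integers), so
`a = 0`. So `G` is finite dimensional and there is a finite set `Q` of primes such that an element
of `G` is determined by its coordinates in `Q`. If `s, s'` are in `Y` the difference of their
factorizations is in `G`; so `s ↦ ∏ p ∈ Q, p ^ (v_p s)` is injective on `Y`, its values are in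
`factoredNumbers Q` and at most `s`. So the sum is at most `ZP Q`. -/
def S_grp : Prop := ∀ C : Submodule ℚ ℂ, FiniteDimensional ℚ C → ∃ M : ℝ, ∀ s₀ : ℕ,
  ∀ Y : Finset ℕ, (∀ s ∈ Y, s ≠ 0 ∧ ((Real.log (s : ℝ) : ℝ) : ℂ) -
    ((Real.log (s₀ : ℝ) : ℝ) : ℂ) ∈ C ⊔ KK ⊥) → ∑ s ∈ Y, (s : ℝ)⁻¹ ≤ M

end Pool.Agent.Lib.MP_c82530_nt.AE
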