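import Pool.Agent.Lib.MP_c82530_nt.AE.Stm

set_option autoImplicit false

namespace Pool.Agent.Lib.MP_c82530_nt.AE

open Set Pool.Agent.Lib.MP_c82530_nt Pool.Agent.Lib.MP_c82530_nt.AA Module

private theorem rrk_sup {ι : Type} (t : Finset ι) (W : ι → Submodule ℚ ℂ) (hW : ∀ i, Good (W i)) :
    Good (t.sup W) := by
  classical
  induction t using Finset.induction_on with
  | empty => simpa using Good.bot
  | insert a t _ ih =>
    rw [Finset.sup_insert]
    exact (hW a).sup ih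

private theorem rrk_space {K : Submodule ℚ ℂ → Submodule ℚ ℂ} (hK : Adm K) :
    ∃ U : Submodule ℚ ℂ, ∀ y, y ∈ U ↔ ∃ S, Good S ∧ y ∈ K S :=
  ⟨{ carrier := {y | ∃ S, Good S ∧ y ∈ K S}
     add_mem' := by
       rintro a b ⟨S, hS, ha⟩ ⟨S', hS', hb⟩
       exact ⟨S ⊔ S', hS.sup hS',
         (K (S ⊔ S')).add_mem (hK.1 _ _ hS (hS.sup hS') le_sup_left ha)
           (hK.1 _ _ hS' (hS.sup hS') le_sup_right hb)⟩
     zero_mem' := ⟨⊥, Good.bot, (K ⊥).zero_mem⟩
     smul_mem' := by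
       rintro c a ⟨S, hS, ha⟩
       exact ⟨S, hS, (K S).smul_mem c ha⟩ }, fun _ => Iff.rfl⟩

theorem p_rrk : S_rrk := by
  intro K hK V hV F hF
  classical
  obtain ⟨U, hU⟩ := rrk_space hK
  set q := (K V).mkQ with hq
  set N := (F ⊔ K V) ⊓ U with hN
  have hfg : (N.map q).FG := by
    have h0 : (K V).map q = ⊥ := by
      rw [eq_bot_iff, Submodule.map_le_iff_le_comap, hq, ← LinearMap.ker, Submodule.ker_mkQ]
    have h1 : N.map q ≤ F.map q := by
      calc N.map q ≤ (F ⊔ K V).map q := Submodule.map_mono inf_le_left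
        _ = F.map q ⊔ (K V).map q := Submodule.map_sup _ _ _
        _ = F.map q := by rw [h0, sup_bot_eq]
    have h2 : FiniteDimensional ℚ (N.map q : Submodule ℚ (ℂ ⧸ K V)) :=
      Submodule.finiteDimensional_of_le h1
    exact (Submodule.fg_iff_finiteDimensional _).2 h2
  obtain ⟨t, ht⟩ := hfg
  have hz : ∀ x : t, ∃ W, Good W ∧ ∃ z ∈ K W, q z = x := by
    intro x
    have hx : (x : ℂ ⧸ K V) ∈ N.map q := by
      rw [← ht]
      exact Submodule.subset_span x.2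
    obtain ⟨z, hzN, hzx⟩ := hx
    obtain ⟨W, hW, hzW⟩ := (hU z).1 hzN.2
    exact ⟨W, hW, z, hzW, hzx⟩
  choose W hW z hz1 hz2 using hz
  have hR : Good (V ⊔ t.attach.sup W) := hV.sup (rrk_sup _ _ hW)
  refine ⟨V ⊔ t.attach.sup W, hR, le_sup_left, ?_⟩
  intro y hy S hS hyS
  have hyN : y ∈ N := ⟨hy, (hU y).2 ⟨S, hS, hyS⟩⟩
  have h1 : q y ∈ Submodule.span ℚ (t : Set (ℂ ⧸ K V)) := by
    rw [ht]
    exact Submodule.mem_map_of_mem hyN
  have h2 : Submodule.span ℚ (t : Set (ℂ ⧸ K V)) ≤ (K (V ⊔ t.attach.sup W)).map q := by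
    rw [Submodule.span_le]
    intro x hx
    refine ⟨z ⟨x, hx⟩, ?_, hz2 ⟨x, hx⟩⟩
    exact hK.1 _ _ (hW _) hR
      ((Finset.le_sup (f := W) (Finset.mem_attach t ⟨x, hx⟩)).trans le_sup_right)
      (hz1 ⟨x, hx⟩)
  obtain ⟨u, hu, huy⟩ := h2 h1
  have h3 : y - u ∈ K V := by
    rw [hq, Submodule.mkQ_apply, Submodule.mkQ_apply, Submodule.Quotient.eq] at huy
    have := (K V).neg_mem huy
    rwa [neg_sub] at this
  have h4 := (K (V ⊔ t.attach.sup W)).add_mem (hK.1 _ _ hV hR le_sup_left h3) hu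
  rwa [sub_add_cancel] at h4

end Pool.Agent.Lib.MP_c82530_nt.AE
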