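import Mathlib
import Pool.Agent.Lib.MP_c82530_nt.AE.Stm
import Pool.Agent.Lib.MP_c82530_nt.AD.Claim

set_option autoImplicit false

namespace Pool.Agent.Lib.MP_c82530_nt.AE

open Set Pool.Agent.Lib.MP_c82530_nt Pool.Agent.Lib.MP_c82530_nt.AA Module
open Pool.Agent.Lib.MP_c82530_nt.AD (sm_empty sm_iUnion sm_ext disj_of_gt S_two S_cut S_lim)

lemma sm_union2 {P : Finset ℕ} {A B : Set ℕ} {ε δ : ℝ} (hA : Sm P A ε) (hB : Sm P B δ) :
    Sm P (A ∪ B) (ε + δ) := by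
  classical
  intro Y hY hYA
  have h1 : ∑ b ∈ Y, (b : ℝ)⁻¹ ≤ ∑ b ∈ Y, ((if b ∈ A then (b : ℝ)⁻¹ else 0) +
      (if b ∈ B then (b : ℝ)⁻¹ else 0)) := by
    apply Finset.sum_le_sum
    intro b hb
    have h0 : (0 : ℝ) ≤ (b : ℝ)⁻¹ := by positivity
    rcases hYA b hb with h | h
    · rw [if_pos h]
      split_ifs <;> linarith
    · rw [if_pos h]
      split_ifs <;> linarith
  rw [Finset.sum_add_distrib] at h1
  have h2 := hA.sum_ite hY
  have h3 := hB.sum_ite hY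
  linarith

lemma Adm.mono {K : Submodule ℚ ℂ → Submodule ℚ ℂ} (hK : Adm K) {S S' : Submodule ℚ ℂ}
    (hS : Good S) (hS' : Good S') (h : S ≤ S') : K S ≤ K S' := hK.1 S S' hS hS' h

lemma Adm.inf {K : Submodule ℚ ℂ → Submodule ℚ ℂ} (hK : Adm K) {S S' : Submodule ℚ ℂ}
    (hS : Good S) (hS' : Good S') {z : ℂ} (h : z ∈ K S) (h' : z ∈ K S') : z ∈ K (S ⊓ S') := by
  obtain ⟨fam, hf⟩ := hK.2 z
  have h1 := hf S S hS hS (Submodule.mem_sup_left h)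
  have h2 := hf S' S' hS' hS' (Submodule.mem_sup_left h')
  apply h1.2 _ hS.inf
  intro M hM
  refine le_inf ?_ ?_
  · rcases h1.1 M hM with h | h <;> exact h
  · rcases h2.1 M hM with h | h <;> exact h

/-- the least space over `W` -/
theorem Adm.exists_least {K : Submodule ℚ ℂ → Submodule ℚ ℂ} (hK : Adm K) {W : Submodule ℚ ℂ}
    {y : ℂ} (h : ∃ S, Good S ∧ W ≤ S ∧ y ∈ K S) :
    ∃ T, Good T ∧ W ≤ T ∧ y ∈ K T ∧ ∀ S, Good S → W ≤ S → y ∈ K S → T ≤ S := by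
  classical
  have hex : ∃ n : ℕ, ∃ S, (Good S ∧ W ≤ S ∧ y ∈ K S) ∧ finrank ℚ S = n := by
    obtain ⟨S, hS⟩ := h
    exact ⟨_, S, hS, rfl⟩
  obtain ⟨T, ⟨hT1, hT2, hT3⟩, hT4⟩ := Nat.find_spec hex
  refine ⟨T, hT1, hT2, hT3, fun S hS1 hS2 hS3 => ?_⟩
  have h1 : Nat.find hex ≤ finrank ℚ (T ⊓ S : Submodule ℚ ℂ) :=
    Nat.find_min' hex ⟨T ⊓ S, ⟨hT1.inf, le_inf hT2 hS2, hK.inf hT1 hS1 hT3 hS3⟩, rfl⟩
  rw [← hT4] at h1
  have := hT1.1
  have h3 : (T ⊓ S : Submodule ℚ ℂ) = T :=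
    Submodule.eq_of_le_of_finrank_le inf_le_left h1
  rw [← h3]
  exact inf_le_right

/-- RAL for admissible families -/
theorem Adm.ral {K : Submodule ℚ ℂ → Submodule ℚ ℂ} (hK : Adm K) {A B T : Submodule ℚ ℂ}
    (hA : Good A) (hB : Good B) (hT : Good T) (hABT : A ⊓ B ≤ T) {y y' : ℂ}
    (hy : y ∈ K A) (hy' : y' ∈ K B) (hz : y - y' ∈ K T) : y ∈ K T := by
  obtain ⟨fam, hf⟩ := hK.2 y
  have h1 := hf A A hA hA (Submodule.mem_sup_left hy)
  have h2 := hf B T hB hT (by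
    have : y = y' + (y - y') := by ring
    rw [this]
    exact Submodule.add_mem _ (Submodule.mem_sup_left hy') (Submodule.mem_sup_right hz))
  apply h1.2 T hT
  intro M hM
  have h3 : M ≤ A := by rcases h1.1 M hM with h | h <;> exact h
  rcases h2.1 M hM with h | h
  · exact (le_inf h3 h).trans hABT
  · exact h

/-- the event -/
def EvK (K : Submodule ℚ ℂ → Submodule ℚ ℂ) (𝒞 : Submodule ℚ ℂ → Prop) (U : Submodule ℚ ℂ)
    (r : ℕ) (y : ℂ) : Prop :=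
  ∃ S, Good S ∧ 𝒞 S ∧ U ≤ S ∧ finrank ℚ S ≤ finrank ℚ U + r ∧ y ∈ K S

/-- uniform smallness -/
def QK (K : Submodule ℚ ℂ → Submodule ℚ ℂ) (𝒞 : Submodule ℚ ℂ → Prop) (r : ℕ) : Prop :=
  ∀ (M : ℕ) (ε : ℝ), 0 < ε → ∀ x₀ : ℕ, ∃ P : Finset ℕ,
    (∀ p ∈ P, p.Prime ∧ x₀ < p) ∧ ∀ U, Good U → finrank ℚ U ≤ M → ∀ g : ℂ,
      Sm P {s | EvK K 𝒞 U r (g + ((Real.log (s : ℝ) : ℝ) : ℂ))} ε

lemma exists_lo (hlo : S_lo) (hcmk : S_cmk) {K : Submodule ℚ ℂ → Submodule ℚ ℂ} (hK : Adm K)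
    {𝒞 : Submodule ℚ ℂ → Prop} (hdown : ∀ W1 W2, Good W2 → W1 ≤ W2 → 𝒞 W2 → 𝒞 W1)
    (hno : ∀ W, Good W → 𝒞 W → ¬ Bd (K W)) (M : ℕ) {ε : ℝ} (hε : 0 < ε) (x₀ : ℕ) :
    ∃ P : Finset ℕ, (∀ p ∈ P, p.Prime ∧ x₀ < p) ∧ ∀ U, Good U → 𝒞 U → finrank ℚ U ≤ M →
      ∀ g : ℂ, Sm P {s | g + ((Real.log (s : ℝ) : ℝ) : ℂ) ∈ K U} ε := by
  obtain ⟨C, hC, h⟩ := lo_sub hlo
  obtain ⟨P, hP, hE⟩ := hcmk K hK 𝒞 hdown hno M ((C / ε) ^ 2) x₀
  refine ⟨P, hP, fun U hU hCU hM g => ?_⟩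
  have hPp : ∀ p ∈ P, p.Prime := fun p hp => (hP p hp).1
  have hE1 : (C / ε) ^ 2 ≤ EK (K U) P := hE U hU hCU hM
  have hpos : 0 < (C / ε) ^ 2 := by positivity
  refine (h P hPp (K U) g (hpos.trans_le hE1)).mono hPp (fun b hb => hb) ?_
  rw [div_le_iff₀ (Real.sqrt_pos.mpr (hpos.trans_le hE1))]
  have h1 : C / ε ≤ √(EK (K U) P) := Real.le_sqrt_of_sq_le hE1
  calc C = ε * (C / ε) := by field_simp
    _ ≤ ε * √(EK (K U) P) := mul_le_mul_of_nonneg_left h1 hε.le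

theorem QK_zero (hlo : S_lo) (hcmk : S_cmk) {K : Submodule ℚ ℂ → Submodule ℚ ℂ} (hK : Adm K)
    {𝒞 : Submodule ℚ ℂ → Prop} (hdown : ∀ W1 W2, Good W2 → W1 ≤ W2 → 𝒞 W2 → 𝒞 W1)
    (hno : ∀ W, Good W → 𝒞 W → ¬ Bd (K W)) : QK K 𝒞 0 := by
  intro M ε hε x₀
  obtain ⟨P, hP, hPs⟩ := exists_lo hlo hcmk hK hdown hno M hε x₀
  have hPp : ∀ p ∈ P, p.Prime := fun p hp => (hP p hp).1
  refine ⟨P, hP, fun U hU hM g => ?_⟩
  have key : ∀ y, EvK K 𝒞 U 0 y → 𝒞 U ∧ y ∈ K U := by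
    rintro y ⟨S, h1, h2, h3, h4, h5⟩
    have := h1.1
    have h6 : U = S := Submodule.eq_of_le_of_finrank_le h3 h4
    rw [h6]
    exact ⟨h2, h5⟩
  by_cases hCU : 𝒞 U
  · exact (hPs U hU hCU hM g).mono hPp (fun b hb => (key _ hb).2) le_rfl
  · exact sm_empty hPp (fun b hb => hCU (key _ hb).1) hε.le

theorem QK_succ (hlo : S_lo) (hcmk : S_cmk) (htwo : S_two) (hcut : S_cut)
    {K : Submodule ℚ ℂ → Submodule ℚ ℂ} (hK : Adm K)
    {𝒞 : Submodule ℚ ℂ → Prop} (hdown : ∀ W1 W2, Good W2 → W1 ≤ W2 → 𝒞 W2 → 𝒞 W1)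
    (hno : ∀ W, Good W → 𝒞 W → ¬ Bd (K W)) {r : ℕ} (hQ : QK K 𝒞 r) : QK K 𝒞 (r + 1) := by
  classical
  intro M ε hε x₀
  have hε1 : 0 < ε ^ 2 / 5 := by positivity
  obtain ⟨P1, hP1, ha1⟩ := exists_lo hlo hcmk hK hdown hno M hε1 x₀
  have h1 : ∀ p ∈ P1, p.Prime := fun p hp => (hP1 p hp).1
  obtain ⟨F, hF⟩ := hcut P1 h1 _ hε1
  choose fam hfam using hK.2
  set k : ℕ := F.sup (fun s => F.sup (fun s' =>
    (fam ((Real.log s : ℂ) - (Real.log s' : ℂ))).card)) with hk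
  have hε2 : 0 < (ε ^ 2 / 5) / 2 ^ (k + 1) := by positivity
  obtain ⟨P2, hP2, hb2⟩ := hQ (M + (r + 1)) _ hε2 (max x₀ (P1.sup id))
  have h2 : ∀ p ∈ P2, p.Prime := fun p hp => (hP2 p hp).1
  have hd : Disjoint P1 P2 := disj_of_gt fun p hp =>
    lt_of_le_of_lt (le_max_right _ _) (hP2 p hp).2
  refine ⟨P1 ∪ P2, ?_, fun U hU hM g => ?_⟩
  · intro p hp
    rcases Finset.mem_union.mp hp with hp | hp
    · exact hP1 p hp
    · exact ⟨h2 p hp, lt_of_le_of_lt (le_max_left _ _) (hP2 p hp).2⟩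
  have hU1 := hU.1
  refine htwo P1 P2 F h1 h2 hd _ (ε ^ 2 / 5) ε hε1.le hε.le (by linarith) hF
    (fun t => {s | 𝒞 U ∧ g + (Real.log t : ℂ) + ((Real.log (s : ℝ) : ℝ) : ℂ) ∈ K U})
    (fun s _ => {s' | 𝒞 U ∧ -(Real.log s : ℂ) + ((Real.log (s' : ℝ) : ℝ) : ℂ) ∈ K U})
    (fun s s' => {t | ∃ I ∈ (fam ((Real.log s : ℂ) - (Real.log s' : ℂ))).powerset,
      t ∈ {t : ℕ | (Good (U ⊔ Finset.sup I id) ∧ finrank ℚ (U ⊔ Finset.sup I id : Submodule ℚ ℂ) ≤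
        M + (r + 1)) ∧ EvK K 𝒞 (U ⊔ Finset.sup I id) r
          (g + (Real.log s : ℂ) + ((Real.log (t : ℝ) : ℝ) : ℂ))} ∪
        {t : ℕ | (Good (U ⊔ Finset.sup I id) ∧ finrank ℚ (U ⊔ Finset.sup I id : Submodule ℚ ℂ) ≤
        M + (r + 1)) ∧ EvK K 𝒞 (U ⊔ Finset.sup I id) r
          (g + (Real.log s' : ℂ) + ((Real.log (t : ℝ) : ℝ) : ℂ))}})
    ?_ ?_ ?_ ?_
  · intro t
    by_cases hCU : 𝒞 U
    · exact (ha1 U hU hCU hM (g + (Real.log t : ℂ))).mono h1 (fun b hb => hb.2) le_rfl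
    · exact sm_empty h1 (fun b hb => hCU hb.1) hε1.le
  · intro s _
    by_cases hCU : 𝒞 U
    · exact (ha1 U hU hCU hM (-(Real.log s : ℂ))).mono h1 (fun b hb => hb.2) le_rfl
    · exact sm_empty h1 (fun b hb => hCU hb.1) hε1.le
  · intro s hs s' hs'
    have h3 := sm_iUnion (P := P2)
      (fam ((Real.log s : ℂ) - (Real.log s' : ℂ))).powerset
      (fun I => {t : ℕ | (Good (U ⊔ Finset.sup I id) ∧
        finrank ℚ (U ⊔ Finset.sup I id : Submodule ℚ ℂ) ≤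
        M + (r + 1)) ∧ EvK K 𝒞 (U ⊔ Finset.sup I id) r
          (g + (Real.log s : ℂ) + ((Real.log (t : ℝ) : ℝ) : ℂ))} ∪
        {t : ℕ | (Good (U ⊔ Finset.sup I id) ∧ finrank ℚ (U ⊔ Finset.sup I id : Submodule ℚ ℂ) ≤
        M + (r + 1)) ∧ EvK K 𝒞 (U ⊔ Finset.sup I id) r
          (g + (Real.log s' : ℂ) + ((Real.log (t : ℝ) : ℝ) : ℂ))})
      (ε := (ε ^ 2 / 5) / 2 ^ (k + 1) + (ε ^ 2 / 5) / 2 ^ (k + 1)) ?_
    · refine h3.mono h2 (fun b hb => hb) ?_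
      have h4 : ((fam ((Real.log s : ℂ) - (Real.log s' : ℂ))).powerset.card : ℝ) ≤
          2 ^ k := by
        have h5 : (fam ((Real.log s : ℂ) - (Real.log s' : ℂ))).powerset.card ≤ 2 ^ k := by
          rw [Finset.card_powerset]
          apply Nat.pow_le_pow_right (by norm_num)
          rw [hk]
          refine le_trans ?_ (Finset.le_sup (f := fun s : ℕ => F.sup (fun s' : ℕ =>
            (fam ((Real.log s : ℂ) - (Real.log s' : ℂ))).card)) hs)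
          exact Finset.le_sup (f := fun s' : ℕ =>
            (fam ((Real.log s : ℂ) - (Real.log s' : ℂ))).card) hs'
        exact_mod_cast h5
      calc _ ≤ 2 ^ k * ((ε ^ 2 / 5) / 2 ^ (k + 1) + (ε ^ 2 / 5) / 2 ^ (k + 1)) :=
            mul_le_mul_of_nonneg_right h4 (by positivity)
        _ = ε ^ 2 / 5 := by field_simp; ring
    · intro I _
      by_cases hI : Good (U ⊔ Finset.sup I id) ∧
        finrank ℚ (U ⊔ Finset.sup I id : Submodule ℚ ℂ) ≤ M + (r + 1)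
      · apply sm_union2
        · exact (hb2 _ hI.1 hI.2 (g + (Real.log s : ℂ))).mono h2 (fun b hb => hb.2) le_rfl
        · exact (hb2 _ hI.1 hI.2 (g + (Real.log s' : ℂ))).mono h2 (fun b hb => hb.2) le_rfl
      · apply sm_empty h2 _ (by positivity)
        rintro b (hb | hb)
        · exact hI hb.1
        · exact hI hb.1
  · intro s s' t hs hs' ht hst hst'
    have hs0 := Nat.ne_zero_of_mem_factoredNumbers hs
    have hs0' := Nat.ne_zero_of_mem_factoredNumbers hs'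
    have ht0 := Nat.ne_zero_of_mem_factoredNumbers ht
    obtain ⟨S, c1, c2, c3, c4, c5⟩ := hst
    obtain ⟨S', d1, d2, d3, d4, d5⟩ := hst'
    rw [log_mul_cast hs0 ht0, ← add_assoc] at c5
    rw [log_mul_cast hs0' ht0, ← add_assoc] at d5
    obtain ⟨T1, t1, t2, t3, t4⟩ := hK.exists_least ⟨S, c1, c3, c5⟩
    obtain ⟨T4, u1, u2, u3, u4⟩ := hK.exists_least ⟨S', d1, d3, d5⟩
    have hT1S : T1 ≤ S := t4 S c1 c3 c5
    have hT4S : T4 ≤ S' := u4 S' d1 d3 d5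
    have hCT1 : 𝒞 T1 := hdown _ _ c1 hT1S c2
    have hCT4 : 𝒞 T4 := hdown _ _ d1 hT4S d2
    have fS := c1.1
    have fS' := d1.1
    have f1 := t1.1
    have f4 := u1.1
    have hr1 : finrank ℚ T1 ≤ finrank ℚ U + (r + 1) := (Submodule.finrank_mono hT1S).trans c4
    have hr4 : finrank ℚ T4 ≤ finrank ℚ U + (r + 1) := (Submodule.finrank_mono hT4S).trans d4
    have hCU : 𝒞 U := hdown _ _ t1 t2 hCT1
    have hz : (Real.log s : ℂ) - (Real.log s' : ℂ) ∈ K T1 ⊔ K T4 := by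
      have e : (Real.log s : ℂ) - (Real.log s' : ℂ) =
        (g + (Real.log s : ℂ) + (Real.log t : ℂ)) - (g + (Real.log s' : ℂ) + (Real.log t : ℂ)) := by
        ring
      rw [e]
      apply Submodule.sub_mem
      · exact Submodule.mem_sup_left t3
      · exact Submodule.mem_sup_right u3
    obtain ⟨g1, g2⟩ := hfam _ T1 T4 t1 u1 hz
    set Fz := fam ((Real.log s : ℂ) - (Real.log s' : ℂ)) with hFz
    -- a larger space
    have hlarge : ∀ (I : Finset (Submodule ℚ ℂ)) (T : Submodule ℚ ℂ) (y : ℂ), Good T → 𝒞 T →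
        U ≤ T → finrank ℚ T ≤ finrank ℚ U + (r + 1) → y ∈ K T → Finset.sup I id ≤ T →
        U < U ⊔ Finset.sup I id → (Good (U ⊔ Finset.sup I id) ∧
          finrank ℚ (U ⊔ Finset.sup I id : Submodule ℚ ℂ) ≤ M + (r + 1)) ∧
          EvK K 𝒞 (U ⊔ Finset.sup I id) r y := by
      intro I T y hT hCT hUT hrT hy hIT hlt
      have fT := hT.1
      have hle : U ⊔ Finset.sup I id ≤ T := sup_le hUT hIT
      have hG : Good (U ⊔ Finset.sup I id) := hT.of_le hle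
      have fG := hG.1
      have e1 := Submodule.finrank_mono hle
      have e2 := Submodule.finrank_lt_finrank_of_lt hlt
      exact ⟨⟨hG, by omega⟩, T, hT, hCT, hle, by omega, hy⟩
    set I := Fz.filter (fun M => M ≤ T1) with hI
    have hIs : Finset.sup I id ≤ T1 := by
      rw [Finset.sup_le_iff]
      intro M hM
      rw [hI, Finset.mem_filter] at hM
      exact hM.2
    by_cases hUI : U < U ⊔ Finset.sup I id
    · right; right
      refine ⟨I, ?_, Or.inl ?_⟩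
      · rw [Finset.mem_powerset]
        exact Finset.filter_subset _ _
      · exact hlarge I T1 _ t1 hCT1 t2 hr1 t3 hIs hUI
    have hUI' : U ⊔ Finset.sup I id = U := by
      by_contra h
      exact hUI (lt_of_le_of_ne le_sup_left (Ne.symm h))
    have h5 : ∀ M ∈ Fz, M ≤ T4 := by
      intro M hM
      rcases g1 M hM with h | h
      · have h6 : M ≤ Finset.sup I id := Finset.le_sup (f := id) (by
          rw [hI, Finset.mem_filter]; exact ⟨hM, h⟩)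
        exact (h6.trans (le_sup_right.trans hUI'.le)).trans u2
      · exact h
    by_cases hUF : U < U ⊔ Finset.sup Fz id
    · right; right
      refine ⟨Fz, ?_, Or.inr ?_⟩
      · rw [Finset.mem_powerset]
      · exact hlarge Fz T4 _ u1 hCT4 u2 hr4 u3 (Finset.sup_le_iff.mpr h5) hUF
    have hUF' : U ⊔ Finset.sup Fz id = U := by
      by_contra h
      exact hUF (lt_of_le_of_ne le_sup_left (Ne.symm h))
    right; left
    refine ⟨hCU, ?_⟩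
    have h6 : (Real.log s : ℂ) - (Real.log s' : ℂ) ∈ K U := by
      apply g2 U hU
      intro M hM
      exact (Finset.le_sup (f := id) hM).trans (le_sup_right.trans hUF'.le)
    have e : -(Real.log s : ℂ) + ((Real.log (s' : ℝ) : ℝ) : ℂ) =
      -((Real.log s : ℂ) - (Real.log s' : ℂ)) := by ring
    rw [e]
    exact Submodule.neg_mem _ h6

theorem QK_all (hlo : S_lo) (hcmk : S_cmk) (htwo : S_two) (hcut : S_cut)
    {K : Submodule ℚ ℂ → Submodule ℚ ℂ} (hK : Adm K)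
    {𝒞 : Submodule ℚ ℂ → Prop} (hdown : ∀ W1 W2, Good W2 → W1 ≤ W2 → 𝒞 W2 → 𝒞 W1)
    (hno : ∀ W, Good W → 𝒞 W → ¬ Bd (K W)) (r : ℕ) : QK K 𝒞 r := by
  induction r with
  | zero => exact QK_zero hlo hcmk hK hdown hno
  | succ r ih => exact QK_succ hlo hcmk htwo hcut hK hdown hno ih

end Pool.Agent.Lib.MP_c82530_nt.AE
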