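import Mathlib
import Pool.Agent.Lib.MP_c82530_nt.AE.Claim
import Pool.Agent.Lib.MP_c82530_nt.AD.Fin

set_option autoImplicit false

namespace Pool.Agent.Lib.MP_c82530_nt.AE

open Set Pool.Agent.Lib.MP_c82530_nt Pool.Agent.Lib.MP_c82530_nt.AA Module Filter Topology
open Pool.Agent.Lib.MP_c82530_nt.AD (S_two S_cut S_lim log_mem_of_primes)

/-- density zero for one class -/
theorem LN_K (hlo : S_lo) (hcmk : S_cmk) (htwo : S_two) (hcut : S_cut) (hmt : S_mt2)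
    {K : Submodule ℚ ℂ → Submodule ℚ ℂ} (hK : Adm K)
    {𝒞 : Submodule ℚ ℂ → Prop} (hdown : ∀ W1 W2, Good W2 → W1 ≤ W2 → 𝒞 W2 → 𝒞 W1)
    (hno : ∀ W, Good W → 𝒞 W → ¬ Bd (K W)) (r : ℕ) (c : ℂ) :
    LN {b : ℕ | ∃ S, Good S ∧ 𝒞 S ∧ finrank ℚ S ≤ r ∧ c + ((Real.log (b : ℝ) : ℝ) : ℂ) ∈ K S} := by
  apply LN_of_small hmt
  intro ε hε
  obtain ⟨P, hP, hPs⟩ := QK_all hlo hcmk htwo hcut hK hdown hno r 0 ε hε 0
  refine ⟨P, fun p hp => (hP p hp).1, fun t ht => ?_⟩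
  refine (hPs ⊥ Good.bot (by simp) (c + ((Real.log (t : ℝ) : ℝ) : ℂ))).mono'
    (fun p hp => (hP p hp).1) ?_ le_rfl
  intro b hb hb0
  obtain ⟨S, h1, h2, h3, h4⟩ := hb
  refine ⟨S, h1, h2, bot_le, by simpa using h3, ?_⟩
  rw [log_mul_cast hb0 ht] at h4
  have e : c + ((Real.log (t : ℝ) : ℝ) : ℂ) + ((Real.log (b : ℝ) : ℝ) : ℂ) =
    c + (((Real.log (b : ℝ) : ℝ) : ℂ) + ((Real.log (t : ℝ) : ℝ) : ℂ)) := by ring
  rw [e]; exact h4

/-- all spaces which do not contain `V` -/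
theorem LN_B (hlo : S_lo) (hcmk : S_cmk) (htwo : S_two) (hcut : S_cut) (hmt : S_mt2)
    (hrrk : S_rrk) (hlim : S_lim) (hexk : S_exk) (hfra : AB.S_fra)
    {K : Submodule ℚ ℂ → Submodule ℚ ℂ} (hK : Adm K) {V : Submodule ℚ ℂ} (hV : Good V)
    (hBV : Bd (K V)) (hmin : ∀ W, Good W → Bd (K W) → V ≤ W) (c : ℂ) :
    LN {b : ℕ | ∃ S, Good S ∧ ¬ V ≤ S ∧ c + ((Real.log (b : ℝ) : ℝ) : ℂ) ∈ K S} := by
  classical
  apply hlim
  intro ε hε
  obtain ⟨Q, hQ, hQs⟩ := hexk (K V) hBV ε hε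
  set F : Submodule ℚ ℂ := Submodule.span ℚ
    (insert c ((fun p : ℕ => ((Real.log (p : ℝ) : ℝ) : ℂ)) '' (Q : Set ℕ))) with hF
  have hFd : FiniteDimensional ℚ F :=
    FiniteDimensional.span_of_finite ℚ ((Q.finite_toSet.image _).insert c)
  obtain ⟨R, hR, hVR, hRR⟩ := hrrk K hK V hV F hFd
  have fR := hR.1
  set A : Set ℕ := {p : ℕ | p ∈ Q ∨ ((Real.log (p : ℝ) : ℝ) : ℂ) ∈ K V} with hA
  refine ⟨{b : ℕ | ∃ S, Good S ∧ ¬ V ≤ S ∧ finrank ℚ S ≤ finrank ℚ R ∧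
    c + ((Real.log (b : ℝ) : ℝ) : ℂ) ∈ K S},
    {b : ℕ | ¬ ∀ p : ℕ, p.Prime → p ∣ b → p ∈ A}, ?_,
    LN_K hlo hcmk htwo hcut hmt hK (𝒞 := fun S => ¬ V ≤ S)
      (fun W1 W2 _ h12 h2 h1 => h2 (h1.trans h12)) (fun W hW h1 h2 => h1 (hmin W hW h2)) _ c, ?_⟩
  · rintro b ⟨S, hS, hVS, hKS⟩ hb0
    by_cases hbA : ∀ p : ℕ, p.Prime → p ∣ b → p ∈ A
    · left
      have hy : c + ((Real.log (b : ℝ) : ℝ) : ℂ) ∈ F ⊔ K V := by
        apply Submodule.add_mem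
        · exact Submodule.mem_sup_left (Submodule.subset_span (mem_insert _ _))
        · apply log_mem_of_primes hb0
          intro p hp hpb
          rcases hbA p hp hpb with h | h
          · exact Submodule.mem_sup_left
              (Submodule.subset_span (mem_insert_of_mem _ ⟨p, h, rfl⟩))
          · exact Submodule.mem_sup_right h
      have h1 := hRR _ hy S hS hKS
      exact ⟨S ⊓ R, hS.inf, fun h => hVS (h.trans inf_le_left),
        Submodule.finrank_mono inf_le_right, hK.inf hS hR hKS h1⟩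
    · right; exact hbA
  · intro N
    have h1 := hfra A ε (fun P hP => hQs P fun p hp => ⟨(hP p hp).1, fun h => (hP p hp).2 (Or.inl h),
      fun h => (hP p hp).2 (Or.inr h)⟩) N
    have h2 : ∑ b ∈ Finset.Icc 1 N, (b : ℝ)⁻¹ =
        ∑ b ∈ Finset.Icc 1 N, {b : ℕ | ∀ p : ℕ, p.Prime → p ∣ b → p ∈ A}.indicator
          (fun b : ℕ => (b : ℝ)⁻¹) b +
        ∑ b ∈ Finset.Icc 1 N, {b : ℕ | ¬ ∀ p : ℕ, p.Prime → p ∣ b → p ∈ A}.indicator
          (fun b : ℕ => (b : ℝ)⁻¹) b := by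
      rw [← Finset.sum_add_distrib]
      apply Finset.sum_congr rfl
      intro b _
      by_cases hb : ∀ p : ℕ, p.Prime → p ∣ b → p ∈ A
      · rw [Set.indicator_of_mem (show b ∈ {b : ℕ | ∀ p : ℕ, p.Prime → p ∣ b → p ∈ A} from hb),
          Set.indicator_of_notMem
            (show b ∉ {b : ℕ | ¬ ∀ p : ℕ, p.Prime → p ∣ b → p ∈ A} from fun h => h hb), add_zero]
      · rw [Set.indicator_of_notMem (show b ∉ {b : ℕ | ∀ p : ℕ, p.Prime → p ∣ b → p ∈ A} from hb),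
          Set.indicator_of_mem
            (show b ∈ {b : ℕ | ¬ ∀ p : ℕ, p.Prime → p ∣ b → p ∈ A} from hb), zero_add]
    linarith

/-- a positive proportion of the integers has its logarithm in `K` -/
theorem pos_prop (hzs : S_zs) (hsp : S_sp) (hexk : S_exk) (hfra : AB.S_fra)
    {K : Submodule ℚ ℂ} (hK : Bd K) : ∃ δ : ℝ, 0 < δ ∧ ∀ N : ℕ,
      δ * Real.log N ≤ ∑ b ∈ Finset.Icc 1 N,
        {b : ℕ | ((Real.log (b : ℝ) : ℝ) : ℂ) ∈ K}.indicator (fun b : ℕ => (b : ℝ)⁻¹) b := by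
  classical
  obtain ⟨Q, hQ, hQs⟩ := hexk K hK (1 / 2) (by norm_num)
  have hZQ := ZP_pos hQ
  refine ⟨1 / (2 * ZP Q), by positivity, fun N => ?_⟩
  set A : Set ℕ := {p : ℕ | p ∈ Q ∨ ((Real.log (p : ℝ) : ℝ) : ℂ) ∈ K} with hA
  have h1 := hfra A (1 / 2) (fun P hP => hQs P fun p hp => ⟨(hP p hp).1,
    fun h => (hP p hp).2 (Or.inl h), fun h => (hP p hp).2 (Or.inr h)⟩) N
  set P : Finset ℕ := Nat.primesBelow (N + 1) with hP
  have h1p : ∀ p ∈ P ∩ Q, p.Prime := fun p hp => hQ p (Finset.mem_inter.mp hp).2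
  have h2p : ∀ p ∈ P \ Q, p.Prime := fun p hp => prime_primesBelow p (Finset.mem_sdiff.mp hp).1
  have hd : Disjoint (P ∩ Q) (P \ Q) := by
    rw [Finset.disjoint_left]
    intro p hp hp'
    exact (Finset.mem_sdiff.mp hp').2 (Finset.mem_inter.mp hp).2
  choose! s hs t ht hst using hsp (P ∩ Q) (P \ Q) h1p h2p hd
  set Y : Finset ℕ := (Finset.Icc 1 N).filter (fun b => ∀ p : ℕ, p.Prime → p ∣ b → p ∈ A) with hY
  have hYb : ∀ b ∈ Y, b ≠ 0 ∧ b ≤ N ∧ ∀ p : ℕ, p.Prime → p ∣ b → p ∈ A := by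
    intro b hb
    rw [hY, Finset.mem_filter, Finset.mem_Icc] at hb
    exact ⟨by omega, hb.1.2, hb.2⟩
  have hYP : ∀ b ∈ Y, b ∈ Nat.factoredNumbers ((P ∩ Q) ∪ (P \ Q)) := by
    intro b hb
    have e : (P ∩ Q) ∪ (P \ Q) = P := by
      ext p
      simp only [Finset.mem_union, Finset.mem_inter, Finset.mem_sdiff]
      tauto
    rw [e]
    exact mem_fac_primesBelow (hYb b hb).1 (hYb b hb).2.1
  set G : Finset ℕ := (Finset.Icc 1 N).filter (fun b : ℕ => ((Real.log (b : ℝ) : ℝ) : ℂ) ∈ K)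
    with hG
  have hts : ∀ b ∈ Y, t b ∈ G := by
    intro b hb
    have hs0 := Nat.ne_zero_of_mem_factoredNumbers (hs b (hYP b hb))
    have ht0 := Nat.ne_zero_of_mem_factoredNumbers (ht b (hYP b hb))
    have e := hst b (hYP b hb)
    rw [hG, Finset.mem_filter, Finset.mem_Icc]
    refine ⟨⟨Nat.pos_of_ne_zero ht0, ?_⟩, ?_⟩
    · have : t b ≤ b := by
        conv_rhs => rw [e]
        exact Nat.le_mul_of_pos_left _ (Nat.pos_of_ne_zero hs0)
      exact this.trans (hYb b hb).2.1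
    · apply log_mem_of_primes ht0
      intro p hp hpt
      have h3 : p ∈ P \ Q := by
        have h4 := ht b (hYP b hb)
        rw [Nat.mem_factoredNumbers] at h4
        exact h4.2 p ((Nat.mem_primeFactorsList ht0).mpr ⟨hp, hpt⟩)
      rcases (hYb b hb).2.2 p hp (by rw [e]; exact hpt.mul_left _) with h | h
      · exact absurd h (Finset.mem_sdiff.mp h3).2
      · exact h
  have h2 : ∑ b ∈ Y, (b : ℝ)⁻¹ ≤ ZP Q * ∑ b ∈ G, (b : ℝ)⁻¹ := by
    have hinj : Set.InjOn (fun b => (s b, t b)) (Y : Set ℕ) := by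
      intro x hx y hy hxy
      simp only [Prod.mk.injEq] at hxy
      rw [hst x (hYP x hx), hst y (hYP y hy), hxy.1, hxy.2]
    have h3 : ∑ b ∈ Y, (b : ℝ)⁻¹ = ∑ q ∈ Y.image (fun b => (s b, t b)),
        (q.1 : ℝ)⁻¹ * (q.2 : ℝ)⁻¹ := by
      rw [Finset.sum_image hinj]
      apply Finset.sum_congr rfl
      intro b hb
      conv_lhs => rw [hst b (hYP b hb)]
      push_cast
      rw [mul_inv]
    rw [h3]
    calc ∑ q ∈ Y.image (fun b => (s b, t b)), (q.1 : ℝ)⁻¹ * (q.2 : ℝ)⁻¹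
        ≤ ∑ q ∈ (Y.image s) ×ˢ G, (q.1 : ℝ)⁻¹ * (q.2 : ℝ)⁻¹ := by
          apply Finset.sum_le_sum_of_subset_of_nonneg
          · intro q hq
            obtain ⟨b, hb, rfl⟩ := Finset.mem_image.mp hq
            exact Finset.mem_product.mpr ⟨Finset.mem_image_of_mem s hb, hts b hb⟩
          · intro q _ _
            positivity
      _ = (∑ a ∈ Y.image s, (a : ℝ)⁻¹) * ∑ b ∈ G, (b : ℝ)⁻¹ := by
          rw [Finset.sum_product, Finset.sum_mul_sum]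
      _ ≤ ZP Q * ∑ b ∈ G, (b : ℝ)⁻¹ := by
          apply mul_le_mul_of_nonneg_right
          · apply hzs Q hQ
            intro a ha
            obtain ⟨b, hb, rfl⟩ := Finset.mem_image.mp ha
            have h4 := hs b (hYP b hb)
            rw [Nat.mem_factoredNumbers] at h4 ⊢
            exact ⟨h4.1, fun p hp => (Finset.mem_inter.mp (h4.2 p hp)).2⟩
          · exact Finset.sum_nonneg fun b _ => by positivity
  rw [sum_indicator_eq] at h1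
  rw [sum_indicator_eq]
  have h5 : Real.log N ≤ ∑ b ∈ Finset.Icc 1 N, (b : ℝ)⁻¹ := by
    have h6 := log_add_one_le_harmonic N
    rw [harmonic_eq_sum_Icc] at h6
    push_cast at h6
    refine le_trans ?_ h6
    rcases Nat.eq_zero_or_pos N with h7 | h7
    · rw [h7]; simp
    · exact Real.log_le_log (by exact_mod_cast h7) (by linarith)
  have h6 : (1 / 2) * Real.log N ≤ ZP Q * ∑ b ∈ G, (b : ℝ)⁻¹ := by
    refine le_trans ?_ (h1.trans h2)
    have : (1 : ℝ) - 1 / 2 = 1 / 2 := by norm_num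
    rw [this]
    linarith
  have h7 : 1 / (2 * ZP Q) * Real.log N = ((1 / 2) * Real.log N) / ZP Q := by
    field_simp
  change 1 / (2 * ZP Q) * Real.log N ≤ ∑ b ∈ G, (b : ℝ)⁻¹
  rw [h7, div_le_iff₀ hZQ]
  linarith

/-- the exceptional set for spaces disjoint from `V` -/
theorem bdd_disjoint (hzs : S_zs) (hsp : S_sp)
    (hze : ∀ P : Finset ℕ, (∀ p ∈ P, p.Prime) → ZP P ≤ Real.exp (2 * ∑ p ∈ P, (p : ℝ)⁻¹))
    (hgrp : S_grp) {C' : Submodule ℚ ℂ} (hC' : FiniteDimensional ℚ C')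
    (hK : Adm (fun S => C' ⊔ KK S)) {V : Submodule ℚ ℂ} (hVg : Good V)
    (hV : Bd (C' ⊔ KK V)) :
    ∃ B : ℝ, ∀ Y : Finset ℕ, (∀ b ∈ Y, (∃ S, Good S ∧ S ⊓ V = ⊥ ∧
      ((Real.log (b : ℝ) : ℝ) : ℂ) ∈ C' ⊔ KK S) ∧ b ≠ 0) → ∑ b ∈ Y, (b : ℝ)⁻¹ ≤ B := by
  classical
  obtain ⟨C, hC⟩ := hV
  obtain ⟨M, hM⟩ := hgrp C' hC'
  have hM0 : 0 ≤ M := by simpa using hM 0 ∅ (by simp)
  refine ⟨M * Real.exp (2 * C), fun Y hY => ?_⟩
  set P : Finset ℕ := Nat.primesBelow (Y.sup id + 1) with hP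
  have hPp : ∀ p ∈ P, p.Prime := prime_primesBelow
  set P2 : Finset ℕ := Out (C' ⊔ KK V) P with hP2
  have hP2s : P2 ⊆ P := fun p hp => (mem_Out.mp hp).1
  have hYP : ∀ b ∈ Y, b ∈ Nat.factoredNumbers ((P \ P2) ∪ P2) := by
    intro b hb
    rw [Finset.sdiff_union_of_subset hP2s]
    exact mem_fac_primesBelow (hY b hb).2 (Finset.le_sup (f := id) hb)
  have h1p : ∀ p ∈ P \ P2, p.Prime := fun p hp => hPp p (Finset.mem_sdiff.mp hp).1
  have h2p : ∀ p ∈ P2, p.Prime := fun p hp => hPp p (hP2s hp)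
  have h1V : ∀ p ∈ P \ P2, ((Real.log (p : ℝ) : ℝ) : ℂ) ∈ C' ⊔ KK V := by
    intro p hp
    rw [Finset.mem_sdiff, hP2, mem_Out] at hp
    by_contra h
    exact hp.2 ⟨hp.1, h⟩
  have hsV : ∀ s ∈ Nat.factoredNumbers (P \ P2), ((Real.log (s : ℝ) : ℝ) : ℂ) ∈ C' ⊔ KK V := by
    intro s hs
    rw [log_eq_sum hs]
    exact Submodule.sum_mem _ fun p hp => Submodule.smul_mem _ _ (h1V p hp)
  choose! s hs t ht hst using hsp (P \ P2) P2 h1p h2p Finset.sdiff_disjoint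
  -- the cofactors with the same `t`
  have hkey : ∀ b ∈ Y, ∀ b' ∈ Y, t b = t b' →
      ((Real.log (s b : ℝ) : ℝ) : ℂ) - ((Real.log (s b' : ℝ) : ℝ) : ℂ) ∈ C' ⊔ KK ⊥ := by
    intro b hb b' hb' htt
    have e1 := hst b (hYP b hb)
    have e2 := hst b' (hYP b' hb')
    have hs0 := Nat.ne_zero_of_mem_factoredNumbers (hs b (hYP b hb))
    have hs0' := Nat.ne_zero_of_mem_factoredNumbers (hs b' (hYP b' hb'))
    have ht0 := Nat.ne_zero_of_mem_factoredNumbers (ht b (hYP b hb))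
    have ht0' := Nat.ne_zero_of_mem_factoredNumbers (ht b' (hYP b' hb'))
    obtain ⟨S, hS1, hS2, hS3⟩ := (hY b hb).1
    obtain ⟨S', hS1', hS2', hS3'⟩ := (hY b' hb').1
    have hdiff : ((Real.log (b : ℝ) : ℝ) : ℂ) - ((Real.log (b' : ℝ) : ℝ) : ℂ) =
        ((Real.log (s b : ℝ) : ℝ) : ℂ) - ((Real.log (s b' : ℝ) : ℝ) : ℂ) := by
      have f1 : ((Real.log (b : ℝ) : ℝ) : ℂ) = (Real.log (s b) : ℂ) + (Real.log (t b) : ℂ) := by
        rw [← log_mul_cast hs0 ht0, ← e1]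
      have f2 : ((Real.log (b' : ℝ) : ℝ) : ℂ) =
          (Real.log (s b') : ℂ) + (Real.log (t b') : ℂ) := by
        rw [← log_mul_cast hs0' ht0', ← e2]
      rw [f1, f2, htt]
      ring
    have hdV : ((Real.log (b : ℝ) : ℝ) : ℂ) - ((Real.log (b' : ℝ) : ℝ) : ℂ) ∈ C' ⊔ KK V := by
      rw [hdiff]
      exact Submodule.sub_mem _ (hsV _ (hs b (hYP b hb))) (hsV _ (hs b' (hYP b' hb')))
    obtain ⟨T, hT1, -, hT3, hT4⟩ := hK.exists_least (W := ⊥) ⟨S, hS1, bot_le, hS3⟩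
    obtain ⟨T', hT1', -, hT3', hT4'⟩ := hK.exists_least (W := ⊥) ⟨S', hS1', bot_le, hS3'⟩
    have hTV : T ⊓ V = ⊥ := by
      rw [eq_bot_iff, ← hS2]
      exact inf_le_inf_right V (hT4 S hS1 bot_le hS3)
    have hTV' : T' ⊓ V = ⊥ := by
      rw [eq_bot_iff, ← hS2']
      exact inf_le_inf_right V (hT4' S' hS1' bot_le hS3')
    -- the two least spaces agree
    have key : ∀ A B : Submodule ℚ ℂ, ∀ y y' : ℂ, Good A → Good B → A ⊓ V = ⊥ →
        y ∈ C' ⊔ KK A → y' ∈ C' ⊔ KK B → y - y' ∈ C' ⊔ KK V →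
        (∀ S, Good S → ⊥ ≤ S → y ∈ C' ⊔ KK S → A ≤ S) → A ≤ B := by
      intro A B y y' hA hB hAV hy hy' hyy hleast
      have hG : Good (V ⊔ (A ⊓ B)) := hVg.sup hA.inf
      have h1 : y ∈ C' ⊔ KK (V ⊔ (A ⊓ B)) :=
        hK.ral hA hB hG le_sup_right hy hy' (hK.mono hVg hG le_sup_left hyy)
      have h2 : A ≤ V ⊔ (A ⊓ B) := hleast _ hG bot_le h1
      intro a ha
      obtain ⟨v, hv, r, hr, hvr⟩ := Submodule.mem_sup.mp (h2 ha)
      have h3 : v ∈ A := by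
        have : v = a - r := by rw [← hvr]; ring
        rw [this]; exact A.sub_mem ha hr.1
      have h4 : v ∈ A ⊓ V := ⟨h3, hv⟩
      rw [hAV, Submodule.mem_bot] at h4
      rw [← hvr, h4, zero_add]
      exact hr.2
    have hTT : T = T' := by
      apply le_antisymm
      · exact key T T' _ _ hT1 hT1' hTV hT3 hT3' hdV hT4
      · apply key T' T _ _ hT1' hT1 hTV' hT3' hT3 _ hT4'
        rw [← neg_sub]
        exact Submodule.neg_mem _ hdV
    have hdT : ((Real.log (b : ℝ) : ℝ) : ℂ) - ((Real.log (b' : ℝ) : ℝ) : ℂ) ∈ C' ⊔ KK T := by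
      apply Submodule.sub_mem _ hT3
      rw [hTT]; exact hT3'
    have hbot : ((Real.log (b : ℝ) : ℝ) : ℂ) - ((Real.log (b' : ℝ) : ℝ) : ℂ) ∈
        C' ⊔ KK (T ⊓ V) := hK.inf hT1 hVg hdT hdV
    rw [hTV, hdiff] at hbot
    exact hbot
  have hsum : ∑ b ∈ Y, (b : ℝ)⁻¹ = ∑ u ∈ Y.image t, ∑ b ∈ Y with t b = u, (b : ℝ)⁻¹ :=
    (Finset.sum_fiberwise_of_maps_to (fun b hb => Finset.mem_image_of_mem t hb) _).symm
  rw [hsum]
  have hstep : ∀ u ∈ Y.image t, ∑ b ∈ Y with t b = u, (b : ℝ)⁻¹ ≤ (u : ℝ)⁻¹ * M := by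
    intro u hu
    obtain ⟨b0, hb0, rfl⟩ := Finset.mem_image.mp hu
    have hinj : Set.InjOn s (Y.filter fun b => t b = t b0 : Finset ℕ) := by
      intro x hx y hy hxy
      simp only [Finset.coe_filter, Set.mem_setOf_eq] at hx hy
      rw [hst x (hYP x hx.1), hst y (hYP y hy.1), hxy, hx.2, hy.2]
    have h3 : ∑ b ∈ Y with t b = t b0, (b : ℝ)⁻¹ =
        ((t b0 : ℕ) : ℝ)⁻¹ * ∑ a ∈ (Y.filter fun b => t b = t b0).image s, (a : ℝ)⁻¹ := by
      rw [Finset.sum_image hinj, Finset.mul_sum]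
      apply Finset.sum_congr rfl
      intro b hb
      rw [Finset.mem_filter] at hb
      have := hst b (hYP b hb.1)
      rw [hb.2] at this
      conv_lhs => rw [this]
      push_cast
      rw [mul_inv, mul_comm]
    rw [h3]
    apply mul_le_mul_of_nonneg_left _ (by positivity)
    apply hM (s b0)
    intro a ha
    obtain ⟨b, hb, rfl⟩ := Finset.mem_image.mp ha
    rw [Finset.mem_filter] at hb
    exact ⟨Nat.ne_zero_of_mem_factoredNumbers (hs b (hYP b hb.1)),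
      hkey b hb.1 b0 hb0 hb.2⟩
  calc _ ≤ ∑ u ∈ Y.image t, (u : ℝ)⁻¹ * M := Finset.sum_le_sum hstep
    _ = M * ∑ u ∈ Y.image t, (u : ℝ)⁻¹ := by rw [← Finset.sum_mul, mul_comm]
    _ ≤ M * ZP P2 := by
        apply mul_le_mul_of_nonneg_left _ hM0
        apply hzs P2 h2p
        intro u hu
        obtain ⟨b, hb, rfl⟩ := Finset.mem_image.mp hu
        exact ht b (hYP b hb)
    _ ≤ M * Real.exp (2 * ∑ p ∈ P2, (p : ℝ)⁻¹) := mul_le_mul_of_nonneg_left (hze P2 h2p) hM0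
    _ ≤ M * Real.exp (2 * C) := by
        apply mul_le_mul_of_nonneg_left _ hM0
        rw [Real.exp_le_exp]
        have : ∑ p ∈ P2, (p : ℝ)⁻¹ ≤ C := hC P hPp
        linarith

/-- almost all logarithms of primes in `C + KK W` -/
def CoP (C W : Submodule ℚ ℂ) : Prop := FiniteDimensional ℚ C ∧ Good W ∧ Bd (C ⊔ KK W)

lemma Bd.mono {K K' : Submodule ℚ ℂ} (h : Bd K) (hle : K ≤ K') : Bd K' := by
  obtain ⟨C, hC⟩ := h
  refine ⟨C, fun P hP => (?_ : EK K' P ≤ EK K P).trans (hC P hP)⟩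
  apply Finset.sum_le_sum_of_subset_of_nonneg
  · intro p hp
    rw [mem_Out] at hp ⊢
    exact ⟨hp.1, fun h => hp.2 (hle h)⟩
  · intro p _ _; positivity

lemma Bd.inf {K1 K2 K : Submodule ℚ ℂ} (h1 : Bd K1) (h2 : Bd K2)
    (h : ∀ z, z ∈ K1 → z ∈ K2 → z ∈ K) : Bd K := by
  classical
  obtain ⟨C1, hC1⟩ := h1
  obtain ⟨C2, hC2⟩ := h2
  refine ⟨C1 + C2, fun P hP => le_trans ?_ (add_le_add (hC1 P hP) (hC2 P hP))⟩
  unfold EK Out
  rw [Finset.sum_filter, Finset.sum_filter, Finset.sum_filter, ← Finset.sum_add_distrib]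
  apply Finset.sum_le_sum
  intro p _
  have hp : (0 : ℝ) ≤ (p : ℝ)⁻¹ := by positivity
  by_cases a1 : ((Real.log (p : ℝ) : ℝ) : ℂ) ∈ K1
  · by_cases a2 : ((Real.log (p : ℝ) : ℝ) : ℂ) ∈ K2
    · rw [if_neg (not_not.mpr (h _ a1 a2)), if_neg (not_not.mpr a1), if_neg (not_not.mpr a2),
        add_zero]
    · rw [if_neg (not_not.mpr a1), if_pos a2]
      split_ifs <;> linarith
  · rw [if_pos a1]
    split_ifs <;> linarith

lemma CoP.inf (hadm : S_adm) {C1 C2 W1 W2 : Submodule ℚ ℂ} (h1 : CoP C1 W1) (h2 : CoP C2 W2) :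
    ∃ C3, CoP C3 (W1 ⊓ W2) := by
  have f1 := h1.1
  have f2 := h2.1
  obtain ⟨C', hC', hle, hK⟩ := hadm (C1 ⊔ C2) (Submodule.finiteDimensional_sup C1 C2)
  refine ⟨C', hC', h1.2.1.inf, ?_⟩
  apply Bd.inf (h1.2.2.mono (sup_le_sup_right (le_sup_left.trans hle) (KK W1)))
    (h2.2.2.mono (sup_le_sup_right (le_sup_right.trans hle) (KK W2)))
  intro z hz1 hz2
  exact hK.inf h1.2.1 h2.2.1 hz1 hz2

lemma exists_min (hadm : S_adm) (h : ∃ C W, CoP C W) :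
    ∃ C V, CoP C V ∧ ∀ C' W, CoP C' W → V ≤ W := by
  classical
  have hex : ∃ n : ℕ, ∃ C W, CoP C W ∧ finrank ℚ W = n := by
    obtain ⟨C, W, hW⟩ := h
    exact ⟨_, C, W, hW, rfl⟩
  obtain ⟨C, V, hV, hn⟩ := Nat.find_spec hex
  refine ⟨C, V, hV, fun C' W hW => ?_⟩
  obtain ⟨C3, h3⟩ := hV.inf hadm hW
  have h1 : Nat.find hex ≤ finrank ℚ (V ⊓ W : Submodule ℚ ℂ) :=
    Nat.find_min' hex ⟨C3, V ⊓ W, h3, rfl⟩
  rw [← hn] at h1
  have := hV.2.1.1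
  have h3 : (V ⊓ W : Submodule ℚ ℂ) = V := Submodule.eq_of_le_of_finrank_le inf_le_left h1
  rw [← h3]
  exact inf_le_right

lemma CoP.map {C W : Submodule ℚ ℂ} (h : CoP C W) : CoP (C.map cjL) (W.map cjL) := by
  obtain ⟨hC, ⟨hfd, halg⟩, B, hB⟩ := h
  refine ⟨inferInstance, ⟨inferInstance, map_alg halg⟩, B, fun P hP => ?_⟩
  refine le_trans ?_ (hB P hP)
  unfold EK
  apply Finset.sum_le_sum_of_subset_of_nonneg
  · intro p hp
    rw [mem_Out] at hp ⊢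
    refine ⟨hp.1, fun h1 => hp.2 ?_⟩
    obtain ⟨c, hc, x, hx, hcx⟩ := Submodule.mem_sup.mp h1
    have h2 : (starRingEnd ℂ) x ∈ KK (W.map cjL) := by
      rw [mem_KK] at hx ⊢
      exact conj_mem_map hx
    have h3 : (starRingEnd ℂ) c ∈ C.map cjL := ⟨c, hc, rfl⟩
    have h4 : ((Real.log (p : ℝ) : ℝ) : ℂ) = (starRingEnd ℂ) c + (starRingEnd ℂ) x := by
      rw [← map_add, hcx, Complex.conj_ofReal]
    rw [h4]
    exact Submodule.add_mem _ (Submodule.mem_sup_left h3) (Submodule.mem_sup_right h2)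
  · intro p _ _; positivity

lemma conj_stable {C V : Submodule ℚ ℂ} (h : CoP C V) (hmin : ∀ C' W, CoP C' W → V ≤ W) :
    ∀ v ∈ V, (starRingEnd ℂ) v ∈ V := by
  intro v hv
  obtain ⟨w, hw, hwv⟩ := hmin _ _ h.map hv
  have : (starRingEnd ℂ) v = w := by
    rw [← hwv, cjL_apply, Complex.conj_conj]
  rw [this]; exact hw

lemma not_CoP_bot (hzs : S_zs) (hsp : S_sp) (hexk : S_exk) (hfra : AB.S_fra) (hgrp : S_grp)
    {C : Submodule ℚ ℂ} : ¬ CoP C ⊥ := by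
  classical
  rintro ⟨hC, -, hB⟩
  obtain ⟨δ, hδ, h⟩ := pos_prop hzs hsp hexk hfra hB
  obtain ⟨M, hM⟩ := hgrp C hC
  have h1 : ∀ N : ℕ, δ * Real.log N ≤ M := by
    intro N
    refine (h N).trans ?_
    rw [sum_indicator_eq]
    apply hM 1
    intro s hs
    rw [Finset.mem_filter, Finset.mem_Icc] at hs
    refine ⟨by omega, ?_⟩
    have e : ((Real.log (s : ℝ) : ℝ) : ℂ) - ((Real.log ((1 : ℕ) : ℝ) : ℝ) : ℂ) =
      ((Real.log (s : ℝ) : ℝ) : ℂ) := by simp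
    rw [e]
    exact hs.2
  have h2 := (Real.tendsto_log_atTop.comp tendsto_natCast_atTop_atTop).eventually_gt_atTop (M / δ)
  obtain ⟨N, hN⟩ := h2.exists
  have h3 := h1 N
  have h4 : M / δ < Real.log N := hN
  rw [div_lt_iff₀ hδ] at h4
  linarith

end Pool.Agent.Lib.MP_c82530_nt.AE
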