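import Mathlib
import Pool.Agent.Lib.MP_c82530_nt.AE.Fin

set_option autoImplicit false

namespace Pool.Agent.Lib.MP_c82530_nt.AE

open Set Pool.Agent.Lib.MP_c82530_nt Pool.Agent.Lib.MP_c82530_nt.AA Module Filter Topology
open Pool.Agent.Lib.MP_c82530_nt.AD (S_two S_cut S_lim log_mem_of_primes)

lemma mem_sup_of_add {C K : Submodule ℚ ℂ} {c y : ℂ} (hc : c ∈ C) (h : c + y ∈ K) :
    y ∈ C ⊔ K := by
  have : y = -c + (c + y) := by ring
  rw [this]
  exact Submodule.add_mem _ (Submodule.mem_sup_left (C.neg_mem hc)) (Submodule.mem_sup_right h)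

/-- **main theorem** (with the pieces as hypotheses) -/
theorem main (hlo : S_lo) (hzs : S_zs) (hsp : S_sp) (hmt : S_mt2)
    (hze : ∀ P : Finset ℕ, (∀ p ∈ P, p.Prime) → ZP P ≤ Real.exp (2 * ∑ p ∈ P, (p : ℝ)⁻¹))
    (hcmk : S_cmk) (htwo : S_two) (hcut : S_cut) (hrrk : S_rrk) (hlim : S_lim)
    (hexk : S_exk) (hfra : AB.S_fra) (hadm : S_adm) (hgrp : S_grp) :
    ∃ V : Submodule ℚ ℂ, FiniteDimensional ℚ V ∧ (∀ v ∈ V, IsAlgebraic ℚ v) ∧
      (∀ v ∈ V, (starRingEnd ℂ) v ∈ V) ∧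
      (V = ⊥ → ∀ (n : ℕ) (C : Submodule ℚ ℂ), FiniteDimensional ℚ C →
        LN {b : ℕ | ∃ c ∈ C, ∃ α : Fin n → ℂ, (∀ i, IsAlgebraic ℚ (α i)) ∧
          LinearIndependent ℚ α ∧ ¬ AI α (c + ((Real.log (b : ℝ) : ℝ) : ℂ))}) ∧
      (V ≠ ⊥ → ∀ C : Submodule ℚ ℂ, FiniteDimensional ℚ C →
        LN {b : ℕ | ∃ c ∈ C, ∃ (n : ℕ) (α : Fin n → ℂ), (∀ i, IsAlgebraic ℚ (α i)) ∧
          LinearIndependent ℚ α ∧ ¬ V ≤ Submodule.span ℚ (range α) ∧
          ¬ AI α (c + ((Real.log (b : ℝ) : ℝ) : ℂ))}) ∧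
      (V ≠ ⊥ → ∀ C : Submodule ℚ ℂ, FiniteDimensional ℚ C →
        Summable ({b : ℕ | ∃ c ∈ C, ∃ (n : ℕ) (α : Fin n → ℂ), (∀ i, IsAlgebraic ℚ (α i)) ∧
          LinearIndependent ℚ α ∧ Disjoint (Submodule.span ℚ (range α)) V ∧
          ¬ AI α (c + ((Real.log (b : ℝ) : ℝ) : ℂ))}.indicator (fun b : ℕ => (b : ℝ)⁻¹))) ∧
      (V ≠ ⊥ → ∃ C : Submodule ℚ ℂ, FiniteDimensional ℚ C ∧
        ∃ δ : ℝ, 0 < δ ∧ ∀ N : ℕ, δ * Real.log N ≤ ∑ b ∈ Finset.Icc 1 N,
        {b : ℕ | ∃ c ∈ C, ∀ (n : ℕ) (α : Fin n → ℂ), (∀ i, IsAlgebraic ℚ (α i)) →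
          LinearIndependent ℚ α → V ≤ Submodule.span ℚ (range α) →
          ¬ AI α (c + ((Real.log (b : ℝ) : ℝ) : ℂ))}.indicator (fun b : ℕ => (b : ℝ)⁻¹) b) := by
  classical
  by_cases hno : ∃ C W, CoP C W
  · obtain ⟨C₀, V, hV, hmin⟩ := exists_min hadm hno
    have hVne : V ≠ ⊥ := by
      rintro rfl
      exact not_CoP_bot hzs hsp hexk hfra hgrp hV
    have f0 := hV.1
    -- an admissible family for every shift space
    have hfamily : ∀ C : Submodule ℚ ℂ, FiniteDimensional ℚ C → ∃ C' : Submodule ℚ ℂ,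
        FiniteDimensional ℚ C' ∧ C ≤ C' ∧ Adm (fun S => C' ⊔ KK S) ∧ Bd (C' ⊔ KK V) ∧
        ∀ W, Good W → Bd (C' ⊔ KK W) → V ≤ W := by
      intro C hC
      obtain ⟨C', hC', hle, hK⟩ := hadm (C ⊔ C₀) (Submodule.finiteDimensional_sup C C₀)
      exact ⟨C', hC', le_sup_left.trans hle, hK,
        hV.2.2.mono (sup_le_sup_right (le_sup_right.trans hle) (KK V)),
        fun W hW hB => hmin C' W ⟨hC', hW, hB⟩⟩
    refine ⟨V, hV.2.1.1, hV.2.1.2, conj_stable hV hmin, fun h => absurd h hVne, ?_, ?_, ?_⟩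
    · intro _ C hC
      obtain ⟨C', hC', hle, hK, hB, hmin'⟩ := hfamily C hC
      apply (LN_B hlo hcmk htwo hcut hmt hrrk hlim hexk hfra hK hV.2.1 hB hmin' 0).mono
      rintro b ⟨c, hc, n, α, hα, hlin, hVα, hAI⟩ _
      refine ⟨_, good_span hα, hVα, ?_⟩
      rw [zero_add]
      exact mem_sup_of_add (hle hc) (mem_KK.mpr (inK_of_dep hα hlin hAI))
    · intro _ C hC
      obtain ⟨C', hC', hle, hK, hB, hmin'⟩ := hfamily C hC
      obtain ⟨B, hbd⟩ := bdd_disjoint hzs hsp hze hgrp hC' hK hV.2.1 hB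
      apply summable_of_sum_le (c := B)
      · intro n
        apply Set.indicator_nonneg
        intro n _; positivity
      · intro u
        set A : Set ℕ := {b : ℕ | ∃ c ∈ C, ∃ (n : ℕ) (α : Fin n → ℂ),
          (∀ i, IsAlgebraic ℚ (α i)) ∧ LinearIndependent ℚ α ∧
          Disjoint (Submodule.span ℚ (range α)) V ∧
          ¬ AI α (c + ((Real.log (b : ℝ) : ℝ) : ℂ))} with hA
        have h1 : ∑ b ∈ u, (A.indicator (fun b : ℕ => (b : ℝ)⁻¹)) b =
            ∑ b ∈ (u.filter (fun b => b ∈ A)).filter (fun b => b ≠ 0), (b : ℝ)⁻¹ := by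
          rw [Finset.sum_filter, Finset.sum_filter]
          apply Finset.sum_congr rfl
          intro b _
          rw [Set.indicator_apply]
          by_cases hb0 : b = 0
          · simp [hb0]
          · simp [hb0]
        rw [h1]
        apply hbd
        intro b hb
        rw [Finset.mem_filter, Finset.mem_filter] at hb
        obtain ⟨⟨_, c, hc, n, α, hα, hlin, hdis, hAI⟩, hb0⟩ := hb
        exact ⟨⟨_, good_span hα, hdis.eq_bot,
          mem_sup_of_add (hle hc) (mem_KK.mpr (inK_of_dep hα hlin hAI))⟩, hb0⟩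
    · intro _
      refine ⟨C₀, hV.1, ?_⟩
      obtain ⟨δ, hδ, h⟩ := pos_prop hzs hsp hexk hfra hV.2.2
      refine ⟨δ, hδ, fun N => (h N).trans ?_⟩
      apply Finset.sum_le_sum
      intro b _
      apply Set.indicator_le_indicator_of_subset
      · intro b hb
        obtain ⟨c, hc, x, hx, hcx⟩ := Submodule.mem_sup.mp hb
        refine ⟨-c, C₀.neg_mem hc, fun n α hα hlin hVα hAI => ?_⟩
        have e : -c + ((Real.log (b : ℝ) : ℝ) : ℂ) = x := by rw [← hcx]; ring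
        rw [e] at hAI
        exact (indep_iff hα hlin).mp hAI (InK.mono (mem_KK.mp hx) hVα)
      · intro b; positivity
  · push Not at hno
    refine ⟨⊥, Good.bot.1, Good.bot.2, ?_, ?_, fun h => absurd rfl h, fun h => absurd rfl h,
      fun h => absurd rfl h⟩
    · intro v hv
      rw [Submodule.mem_bot] at hv ⊢
      rw [hv, map_zero]
    · intro _ n C hC
      obtain ⟨C', hC', hle, hK⟩ := hadm C hC
      apply (LN_K hlo hcmk htwo hcut hmt hK (𝒞 := fun _ => True) (fun _ _ _ _ _ => trivial)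
        (fun W hW _ hB => hno C' W ⟨hC', hW, hB⟩) n 0).mono
      rintro b ⟨c, hc, α, hα, hlin, hAI⟩ _
      refine ⟨_, good_span hα, trivial, ?_, ?_⟩
      · have h1 : finrank ℚ (Submodule.span ℚ (range α)) = Fintype.card (Fin n) :=
          finrank_span_eq_card hlin
        rw [h1, Fintype.card_fin]
      · rw [zero_add]
        exact mem_sup_of_add (hle hc) (mem_KK.mpr (inK_of_dep hα hlin hAI))

end Pool.Agent.Lib.MP_c82530_nt.AE
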