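import Pool.Agent.Lib.MP_c82530_nt.AE.Stm

set_option autoImplicit false

/-!
# MP_c82530_nt, piece ADM (helper37): an admissible family from an adapted basis
-/

namespace Pool.Agent.Lib.MP_c82530_nt.AE

open Set Pool.Agent.Lib.MP_c82530_nt Pool.Agent.Lib.MP_c82530_nt.AA Module

/-- a finite dimensional subspace of the span of a family is in the span of a finite subfamily -/
private theorem adm_fin {ι : Type} (v : ι → ℂ) (D : Submodule ℚ ℂ) [FiniteDimensional ℚ D]
    (hD : D ≤ Submodule.span ℚ (Set.range v)) :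
    ∃ I : Finset ι, D ≤ Submodule.span ℚ (v '' (I : Set ι)) := by
  classical
  have hfg : D.FG := (Submodule.fg_iff_finiteDimensional D).2 inferInstance
  obtain ⟨s, hs⟩ := hfg
  have h1 : ∀ x : ℂ, ∃ I : Finset ι, x ∈ s → x ∈ Submodule.span ℚ (v '' (I : Set ι)) := by
    intro x
    by_cases hx : x ∈ s
    · have hxD : x ∈ D := hs ▸ Submodule.subset_span hx
      obtain ⟨c, hc⟩ := (Finsupp.mem_span_range_iff_exists_finsupp).1 (hD hxD)
      refine ⟨c.support, fun _ => ?_⟩
      rw [← hc]
      refine Submodule.sum_mem _ fun i hi => Submodule.smul_mem _ _ (Submodule.subset_span ?_)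
      exact ⟨i, hi, rfl⟩
    · exact ⟨∅, fun h => absurd h hx⟩
  choose I hI using h1
  refine ⟨s.biUnion I, ?_⟩
  rw [← hs, Submodule.span_le]
  intro x hx
  refine Submodule.span_mono (Set.image_mono ?_) (hI x hx)
  intro i hi
  exact Finset.mem_coe.2 (Finset.mem_biUnion.2 ⟨x, hx, hi⟩)

theorem p_adm (h : S_gr) : S_adm := by
  classical
  obtain ⟨ι, v, ℓ, hv, hℓ, hK⟩ := h
  intro C hC
  obtain ⟨X, hX⟩ : ∃ X, X = Submodule.span ℚ (Set.range v) := ⟨_, rfl⟩
  have hKX : ∀ S, Good S → KK S ≤ X := by
    intro S hS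
    rw [hK S hS, hX]
    exact Submodule.span_mono (Set.image_subset_range _ _)
  have : FiniteDimensional ℚ (C ⊓ X : Submodule ℚ ℂ) := Submodule.finiteDimensional_inf_left C X
  obtain ⟨I, hI⟩ := adm_fin v (C ⊓ X) (by rw [hX]; exact inf_le_right)
  obtain ⟨N, hN⟩ : ∃ N, N = Submodule.span ℚ (v '' (I : Set ι)) := ⟨_, rfl⟩
  rw [← hN] at hI
  have hNX : N ≤ X := by
    rw [hN, hX]
    exact Submodule.span_mono (Set.image_subset_range _ _)
  have : FiniteDimensional ℚ N := by
    rw [hN]
    exact FiniteDimensional.span_of_finite ℚ ((Finset.finite_toSet I).image v)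
  obtain ⟨C', hC'⟩ : ∃ C', C' = N ⊔ C := ⟨_, rfl⟩
  have hC'X : C' ⊓ X = N := by
    rw [hC', sup_inf_assoc_of_le C hNX]
    exact sup_eq_left.2 hI
  have hNC' : N ≤ C' := by rw [hC']; exact le_sup_left
  have hCC' : C ≤ C' := by rw [hC']; exact le_sup_right
  refine ⟨C', ?_, hCC', ?_, ?_⟩
  · rw [hC']
    infer_instance
  · intro S S' hS hS' hSS'
    refine sup_le_sup_left ?_ _
    rw [hK S hS, hK S' hS']
    exact Submodule.span_mono (Set.image_mono fun i hi => le_trans hi hSS')
  · intro z
    by_cases hz : z ∈ C' ⊔ X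
    · obtain ⟨c, hc, x, hx, rfl⟩ := Submodule.mem_sup.1 hz
      rw [hX] at hx
      obtain ⟨l, rfl⟩ := (Finsupp.mem_span_range_iff_exists_finsupp).1 hx
      refine ⟨(l.support \ I).image ℓ, ?_⟩
      intro H H' hH hH' hzH
      constructor
      · obtain ⟨a, ha, b, hb, hab⟩ := Submodule.mem_sup.1 hzH
        obtain ⟨c1, hc1, h1, hh1, rfl⟩ := Submodule.mem_sup.1 ha
        obtain ⟨c2, hc2, h2, hh2, rfl⟩ := Submodule.mem_sup.1 hb
        have hh1X := hKX H hH hh1
        have hh2X := hKX H' hH' hh2
        rw [hK H hH, Finsupp.mem_span_image_iff_linearCombination] at hh1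
        rw [hK H' hH', Finsupp.mem_span_image_iff_linearCombination] at hh2
        obtain ⟨p, hp, rfl⟩ := hh1
        obtain ⟨q, hq, rfl⟩ := hh2
        have hlX : (l.sum fun i a => a • v i) ∈ X := by
          rw [hX]
          exact hx
        have hd : (l.sum fun i a => a • v i) - Finsupp.linearCombination ℚ v p -
            Finsupp.linearCombination ℚ v q = c1 + c2 - c := by
          linear_combination -hab
        have hdN : (l.sum fun i a => a • v i) - Finsupp.linearCombination ℚ v p -
            Finsupp.linearCombination ℚ v q ∈ N := by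
          rw [← hC'X]
          refine Submodule.mem_inf.2 ⟨?_, ?_⟩
          · rw [hd]
            exact C'.sub_mem (C'.add_mem hc1 hc2) hc
          · exact X.sub_mem (X.sub_mem hlX hh1X) hh2X
        rw [hN, Finsupp.mem_span_image_iff_linearCombination] at hdN
        obtain ⟨r, hr, hr2⟩ := hdN
        have hl : l = p + q + r := by
          have h0 : Finsupp.linearCombination ℚ v l = Finsupp.linearCombination ℚ v (p + q + r) := by
            rw [map_add, map_add, hr2, Finsupp.linearCombination_apply ℚ l]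
            ring
          exact hv h0
        intro M hM
        obtain ⟨i, hi, rfl⟩ := Finset.mem_image.1 hM
        obtain ⟨hi1, hi2⟩ := Finset.mem_sdiff.1 hi
        have hri : r i = 0 := by
          by_contra hne
          exact hi2 (Finset.mem_coe.1 ((Finsupp.mem_supported ℚ r).1 hr (Finsupp.mem_support_iff.2 hne)))
        have hli : l i ≠ 0 := Finsupp.mem_support_iff.1 hi1
        rw [hl, Finsupp.add_apply, Finsupp.add_apply, hri, add_zero] at hli
        by_cases hpi : p i = 0
        · rw [hpi, zero_add] at hli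
          right
          exact (Finsupp.mem_supported ℚ q).1 hq (Finsupp.mem_support_iff.2 hli)
        · left
          exact (Finsupp.mem_supported ℚ p).1 hp (Finsupp.mem_support_iff.2 hpi)
      · intro T hT hfam
        refine Submodule.add_mem _ (Submodule.mem_sup_left hc) ?_
        refine Submodule.sum_mem _ fun i hi => ?_
        by_cases hiI : i ∈ I
        · refine Submodule.mem_sup_left (hNC' ?_)
          rw [hN]
          exact Submodule.smul_mem _ _ (Submodule.subset_span ⟨i, hiI, rfl⟩)
        · refine Submodule.mem_sup_right ?_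
          rw [hK T hT]
          refine Submodule.smul_mem _ _ (Submodule.subset_span ⟨i, ?_, rfl⟩)
          exact hfam _ (Finset.mem_image.2 ⟨i, Finset.mem_sdiff.2 ⟨hi, hiI⟩, rfl⟩)
    · refine ⟨∅, ?_⟩
      intro H H' hH hH' hzH
      exfalso
      apply hz
      have h1 : (C' ⊔ KK H) ⊔ (C' ⊔ KK H') ≤ C' ⊔ X :=
        sup_le (sup_le_sup_left (hKX H hH) _) (sup_le_sup_left (hKX H' hH') _)
      exact h1 hzH

end Pool.Agent.Lib.MP_c82530_nt.AE
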