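import Pool.Agent.Lib.MP_c82530_nt.AE.Stm

set_option autoImplicit false

namespace Pool.Agent.Lib.MP_c82530_nt.AE

open Set Pool.Agent.Lib.MP_c82530_nt Pool.Agent.Lib.MP_c82530_nt.AA Module

lemma cmk_inf {K : Submodule ℚ ℂ → Submodule ℚ ℂ} (hK : Adm K) {W1 W2 : Submodule ℚ ℂ}
    (h1 : Good W1) (h2 : Good W2) {z : ℂ} (z1 : z ∈ K W1) (z2 : z ∈ K W2) : z ∈ K (W1 ⊓ W2) := by
  obtain ⟨fam, hfam⟩ := hK.2 z
  have a1 := (hfam W1 W1 h1 h1 (Submodule.mem_sup_left z1)).1
  obtain ⟨a2, a3⟩ := hfam W2 W2 h2 h2 (Submodule.mem_sup_left z2)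
  refine a3 (W1 ⊓ W2) h1.inf fun M hM => le_inf ?_ ?_
  · exact (a1 M hM).elim id id
  · exact (a2 M hM).elim id id

lemma cmk_EK_inf {K : Submodule ℚ ℂ → Submodule ℚ ℂ} (hK : Adm K) {W1 W2 : Submodule ℚ ℂ}
    (h1 : Good W1) (h2 : Good W2) (P : Finset ℕ) :
    EK (K (W1 ⊓ W2)) P ≤ EK (K W1) P + EK (K W2) P := by
  classical
  unfold EK Out
  rw [Finset.sum_filter, Finset.sum_filter, Finset.sum_filter, ← Finset.sum_add_distrib]
  apply Finset.sum_le_sum
  intro p _
  have hp : (0 : ℝ) ≤ (p : ℝ)⁻¹ := by positivity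
  by_cases a1 : ((Real.log (p : ℝ) : ℝ) : ℂ) ∈ K W1
  · by_cases a2 : ((Real.log (p : ℝ) : ℝ) : ℂ) ∈ K W2
    · have := cmk_inf hK h1 h2 a1 a2
      rw [if_neg (not_not.mpr this), if_neg (not_not.mpr a1), if_neg (not_not.mpr a2), add_zero]
    · rw [if_neg (not_not.mpr a1), if_pos a2]
      split_ifs <;> linarith
  · rw [if_pos a1]
    split_ifs <;> linarith

lemma cmk_large {K : Submodule ℚ ℂ} (h : ¬ Bd K) (C : ℝ) :
    ∃ x : ℕ, ∀ y, x ≤ y → C ≤ EK K (Nat.primesBelow y) := by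
  by_contra hcon
  push Not at hcon
  apply h
  refine ⟨C, fun P hP => ?_⟩
  obtain ⟨y, hy, hy2⟩ := hcon (P.sup id + 1)
  exact (EK_mono (subset_primesBelow hP (by omega))).trans hy2.le

lemma cmk_compactness {K : Submodule ℚ ℂ → Submodule ℚ ℂ} (hK : Adm K)
    {𝒞 : Submodule ℚ ℂ → Prop} (hcl : ∀ W1 W2, Good W2 → W1 ≤ W2 → 𝒞 W2 → 𝒞 W1)
    (hno : ∀ W, Good W → 𝒞 W → ¬ Bd (K W)) :
    ∀ (d : ℕ) (C : ℝ), ∃ x : ℕ,
      ∀ W, Good W → 𝒞 W → finrank ℚ W ≤ d → C ≤ EK (K W) (Nat.primesBelow x) := by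
  intro d
  induction d with
  | zero =>
    intro C
    by_cases hb : 𝒞 ⊥
    · obtain ⟨x, hx⟩ := cmk_large (hno ⊥ Good.bot hb) C
      refine ⟨x, fun W hW _ hd => ?_⟩
      have := hW.1
      have hW0 : W = ⊥ := by
        rw [← Submodule.finrank_eq_zero (R := ℚ)]
        omega
      rw [hW0]
      exact hx x le_rfl
    · refine ⟨0, fun W hW hc hd => ?_⟩
      exfalso
      have := hW.1
      have hW0 : W = ⊥ := by
        rw [← Submodule.finrank_eq_zero (R := ℚ)]
        omega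
      rw [hW0] at hc
      exact hb hc
  | succ d ih =>
    intro C
    by_contra hcon
    push Not at hcon
    obtain ⟨x0, hx0⟩ := ih (2 * C)
    choose Wx hg hc hr hlt using hcon
    have key : ∀ x, x0 ≤ x → Wx x = Wx x0 := by
      intro x hx
      have f1 := (hg x).1
      have f0 := (hg x0).1
      have h1 : EK (K (Wx x ⊓ Wx x0)) (Nat.primesBelow x0) < 2 * C := by
        have h2 := cmk_EK_inf hK (hg x) (hg x0) (Nat.primesBelow x0)
        have h3 : EK (K (Wx x)) (Nat.primesBelow x0) ≤ EK (K (Wx x)) (Nat.primesBelow x) :=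
          EK_mono (primesBelow_mono hx)
        have h4 := hlt x
        have h5 := hlt x0
        linarith
      have h2 : d < finrank ℚ (Wx x ⊓ Wx x0 : Submodule ℚ ℂ) := by
        by_contra h3
        push Not at h3
        exact absurd (hx0 _ (hg x).inf (hcl _ _ (hg x0) inf_le_right (hc x0)) h3)
          (not_le.mpr h1)
      have e1 : Wx x ⊓ Wx x0 = Wx x :=
        Submodule.eq_of_le_of_finrank_le inf_le_left (by have := hr x; omega)
      have e2 : Wx x ⊓ Wx x0 = Wx x0 :=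
        Submodule.eq_of_le_of_finrank_le inf_le_right (by have := hr x0; omega)
      exact e1.symm.trans e2
    obtain ⟨x, hx⟩ := cmk_large (hno _ (hg x0) (hc x0)) C
    have h1 := hx (max x x0) (le_max_left _ _)
    have h2 := hlt (max x x0)
    rw [key _ (le_max_right _ _)] at h2
    linarith

theorem p_cmk : S_cmk := by
  classical
  intro K hK 𝒞 hcl hno M C x₀
  obtain ⟨x, hx⟩ := cmk_compactness hK hcl hno M (C + ∑ p ∈ Finset.range (x₀ + 1), (p : ℝ)⁻¹)
  refine ⟨(Nat.primesBelow x).filter (fun p => x₀ < p), ?_, fun W hW hc hM => ?_⟩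
  · intro p hp
    rw [Finset.mem_filter] at hp
    exact ⟨prime_primesBelow p hp.1, hp.2⟩
  · have h1 := hx W hW hc hM
    have h2 : EK (K W) (Nat.primesBelow x) ≤
        EK (K W) ((Nat.primesBelow x).filter (fun p => x₀ < p)) +
          ∑ p ∈ Finset.range (x₀ + 1), (p : ℝ)⁻¹ := by
      unfold EK
      rw [← Finset.sum_filter_add_sum_filter_not (Out (K W) (Nat.primesBelow x))
        (fun p => x₀ < p)]
      apply add_le_add
      · apply le_of_eq
        apply Finset.sum_congr _ (fun _ _ => rfl)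
        ext p
        simp only [Finset.mem_filter, mem_Out]
        tauto
      · apply Finset.sum_le_sum_of_subset_of_nonneg
        · intro p hp
          rw [Finset.mem_filter] at hp
          rw [Finset.mem_range]
          have := hp.2
          omega
        · intro p _ _; positivity
    linarith

end Pool.Agent.Lib.MP_c82530_nt.AE
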