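import Pool.Agent.Lib.MP_c82530_nt.AE.Stm

set_option autoImplicit false

/-!
# Piece EXK: shrinking the exceptional weight
-/

namespace Pool.Agent.Lib.MP_c82530_nt.AE

open Set Pool.Agent.Lib.MP_c82530_nt Pool.Agent.Lib.MP_c82530_nt.AA Module

theorem p_exk : S_exk := by
  classical
  rintro K ⟨C, hC⟩ ε hε
  set A : Set ℝ := {x | ∃ P : Finset ℕ, (∀ p ∈ P, p.Prime ∧
    ((Real.log (p : ℝ) : ℝ) : ℂ) ∉ K) ∧ x = ∑ p ∈ P, (p : ℝ)⁻¹} with hA
  have hne : A.Nonempty := ⟨0, ∅, by simp, by simp⟩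
  have hbd : BddAbove A := ⟨C, by
    rintro x ⟨P, hP, rfl⟩
    have h1 := hC P (fun p hp => (hP p hp).1)
    have h2 : Out K P = P := by
      ext p
      rw [mem_Out]
      exact ⟨fun h => h.1, fun h => ⟨h, (hP p h).2⟩⟩
    rw [EK, h2] at h1
    exact h1⟩
  obtain ⟨x, ⟨Q, hQ, rfl⟩, hx⟩ := exists_lt_of_lt_csSup hne (show sSup A - ε < sSup A by linarith)
  refine ⟨Q, fun p hp => (hQ p hp).1, ?_⟩
  intro P hP
  have hdis : Disjoint P Q := by
    rw [Finset.disjoint_left]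
    intro p hp hp0
    exact (hP p hp).2.1 hp0
  have h1 : ∑ p ∈ P ∪ Q, (p : ℝ)⁻¹ ≤ sSup A := by
    apply le_csSup hbd
    refine ⟨P ∪ Q, ?_, rfl⟩
    intro p hp
    rcases Finset.mem_union.1 hp with h | h
    · exact ⟨(hP p h).1, (hP p h).2.2⟩
    · exact hQ p h
  rw [Finset.sum_union hdis] at h1
  linarith

end Pool.Agent.Lib.MP_c82530_nt.AE
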