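import Pool.Agent.Lib.MP_c82530_nt.AE.Stm

set_option autoImplicit false

namespace Pool.Agent.Lib.MP_c82530_nt.AE

open Set Pool.Agent.Lib.MP_c82530_nt Pool.Agent.Lib.MP_c82530_nt.AA Module

private lemma gr_mono {A B : Submodule ℚ ℂ} (h : A ≤ B) : KK A ≤ KK B := fun _ hz =>
  mem_KK.2 ((mem_KK.1 hz).mono h)

private lemma gr_good {A B : Submodule ℚ ℂ} (h : A ≤ B) (hB : Good B) : Good A :=
  ⟨haveI := hB.1; Submodule.finiteDimensional_of_le h, fun w hw => hB.2 w (h hw)⟩

private lemma gr_SK_le {s : Multiset (Submodule ℚ ℂ)} {X : Submodule ℚ ℂ}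
    (h : ∀ B ∈ s, KK B ≤ X) : AD.SK s ≤ X := by
  unfold AD.SK
  rw [Multiset.sup_le]
  intro b hb
  obtain ⟨B, hB, rfl⟩ := Multiset.mem_map.1 hb
  exact h B hB

private lemma gr_le_SK {s : Multiset (Submodule ℚ ℂ)} {B : Submodule ℚ ℂ} (h : B ∈ s) :
    KK B ≤ AD.SK s :=
  Multiset.le_sup (Multiset.mem_map_of_mem KK h)

/-- the sum of the `KK S'`, `S' < S` -/
private noncomputable def grL (S : Submodule ℚ ℂ) : Submodule ℚ ℂ :=
  ⨆ (S' : Submodule ℚ ℂ) (_ : S' < S), KK S'

private lemma gr_exists (S : Submodule ℚ ℂ) :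
    ∃ C : Submodule ℚ ℂ, C ⊓ grL S = ⊥ ∧ grL S ⊔ C = KK S := by
  obtain ⟨D, hD⟩ := Submodule.exists_isCompl (grL S)
  refine ⟨D ⊓ KK S, ?_, ?_⟩
  · rw [eq_bot_iff]
    calc D ⊓ KK S ⊓ grL S ≤ grL S ⊓ D := le_inf inf_le_right (inf_le_left.trans inf_le_left)
      _ = ⊥ := hD.inf_eq_bot
      _ ≤ ⊥ := le_rfl
  · have hL : grL S ≤ KK S := iSup₂_le fun S' h => gr_mono h.le
    rw [← sup_inf_assoc_of_le _ hL, hD.sup_eq_top, top_inf_eq]

theorem p_gr (h : AD.S_star) : S_gr := by
  classical
  choose C hC1 hC2 using gr_exists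
  let β : {S : Submodule ℚ ℂ // Good S} → Type := fun S => Basis.ofVectorSpaceIndex ℚ (C S)
  let v : (Σ S, β S) → ℂ := fun i => ((i.2 : (C i.1.1 : Submodule ℚ ℂ)) : ℂ)
  let l : (Σ S, β S) → Submodule ℚ ℂ := fun i => i.1.1
  have hvC : ∀ i, v i ∈ C (l i) := fun i => (i.2 : (C i.1.1 : Submodule ℚ ℂ)).2
  have hCK : ∀ S, C S ≤ KK S := fun S => le_sup_right.trans (hC2 S).le
  have hli : ∀ S : {S : Submodule ℚ ℂ // Good S},
      LinearIndependent ℚ (fun i : {i : (Σ S, β S) // i.1 = S} => v i.1) := by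
    intro S
    rw [← linearIndependent_equiv (Equiv.sigmaSubtype S).symm]
    have h1 := (Basis.ofVectorSpace ℚ (C S.1 : Submodule ℚ ℂ)).linearIndependent
    have h2 := h1.map' (C S.1).subtype (Submodule.ker_subtype _)
    have h3 : ((fun i : {i : (Σ S, β S) // i.1 = S} => v i.1) ∘ (Equiv.sigmaSubtype S).symm) =
        (C S.1).subtype ∘ (Basis.ofVectorSpace ℚ (C S.1 : Submodule ℚ ℂ)) := by
      funext j
      simp only [Function.comp_apply, Submodule.subtype_apply, Basis.coe_ofVectorSpace]
      rfl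
    rw [h3]
    exact h2
  refine ⟨(Σ S, β S), v, l, ?_, fun i => ⟨hCK _ (hvC i), i.1.2⟩, ?_⟩
  · rw [linearIndependent_iff']
    intro s g hsum
    by_contra hne
    simp only [not_forall] at hne
    obtain ⟨i1, hi1, hg1⟩ := hne
    set s' := s.filter (fun i => g i ≠ 0) with hs'
    have hsum' : ∑ i ∈ s', g i • v i = 0 := by
      rw [hs', Finset.sum_filter_of_ne]
      · exact hsum
      · intro i _ hi hg
        exact hi (by rw [hg, zero_smul])
    have hne' : (s'.image fun i => i.1).Nonempty :=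
      ⟨i1.1, Finset.mem_image_of_mem _ (Finset.mem_filter.2 ⟨hi1, hg1⟩)⟩
    obtain ⟨S, hS⟩ := Finset.exists_maximal hne'
    obtain ⟨i0, hi0, hi0S⟩ := Finset.mem_image.1 hS.1
    set u := ∑ i ∈ s'.filter (fun i => i.1 = S), g i • v i with hu
    have hsplit : u + ∑ i ∈ s'.filter (fun i => ¬ i.1 = S), g i • v i = 0 := by
      rw [hu, Finset.sum_filter_add_sum_filter_not]
      exact hsum'
    have huC : u ∈ C S.1 := by
      refine Submodule.sum_mem _ fun i hi => Submodule.smul_mem _ _ ?_
      have := hvC i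
      rwa [show l i = S.1 from by rw [← (Finset.mem_filter.1 hi).2]] at this
    set t : Multiset (Submodule ℚ ℂ) := (s'.filter (fun i => ¬ i.1 = S)).val.map l with ht
    have hmt : ∀ i ∈ s'.filter (fun i => ¬ i.1 = S), l i ∈ t := fun i hi =>
      Multiset.mem_map_of_mem l hi
    have huS : u ∈ AD.SK t := by
      rw [eq_neg_of_add_eq_zero_left hsplit]
      refine Submodule.neg_mem _ (Submodule.sum_mem _ fun i hi => Submodule.smul_mem _ _ ?_)
      exact gr_le_SK (hmt i hi) (hCK _ (hvC i))
    set R : Submodule ℚ ℂ := S.1 ⊔ (s'.filter (fun i => ¬ i.1 = S)).sup l with hR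
    have hRg : Good R := by
      refine S.2.sup ?_
      have : ∀ w : Finset (Σ S, β S), Good (w.sup l) := by
        intro w
        induction w using Finset.induction_on with
        | empty => simpa using Good.bot
        | insert a w _ ih =>
          rw [Finset.sup_insert]
          exact (a.1.2).sup ih
      exact this _
    have huL : u ∈ grL S.1 := by
      have h1 := h R hRg S.1 le_sup_left t ?_ u (hCK _ huC) huS
      · refine gr_SK_le ?_ h1
        intro B hB
        obtain ⟨B', hB', rfl⟩ := Multiset.mem_map.1 hB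
        obtain ⟨i, hi, rfl⟩ := Multiset.mem_map.1 hB'
        have hi' := Finset.mem_filter.1 (show i ∈ s'.filter (fun i => ¬ i.1 = S) from hi)
        refine le_iSup₂_of_le (S.1 ⊓ l i) ?_ le_rfl
        refine lt_of_le_of_ne inf_le_left fun he => hi'.2 ?_
        have hle : S.1 ≤ l i := inf_eq_left.1 he
        have hle' : S ≤ i.1 := hle
        exact le_antisymm (hS.2 (Finset.mem_image_of_mem _ hi'.1) hle') hle'
      · intro B hB
        obtain ⟨i, hi, rfl⟩ := Multiset.mem_map.1 hB
        exact le_sup_of_le_right (Finset.le_sup (f := l) hi)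
    have hu0 : u = 0 := by
      have : u ∈ C S.1 ⊓ grL S.1 := ⟨huC, huL⟩
      rwa [hC1, Submodule.mem_bot] at this
    have h3 := linearIndependent_iff'.1 (hli S) (s'.subtype (fun i => i.1 = S))
      (fun i => g i.1) (by
        rw [Finset.sum_subtype_eq_sum_filter (f := fun i => g i • v i)]
        exact hu0) ⟨i0, hi0S⟩ (by
        rw [Finset.mem_subtype]
        exact hi0)
    exact (Finset.mem_filter.1 hi0).2 h3
  · intro S hS
    refine le_antisymm ?_ ?_
    · have key : ∀ n : ℕ, ∀ S : Submodule ℚ ℂ, Good S → finrank ℚ S = n →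
          KK S ≤ Submodule.span ℚ (v '' {i | l i ≤ S}) := by
        intro n
        induction n using Nat.strong_induction_on with
        | _ n ih =>
          intro S hS hn
          rw [← hC2 S]
          refine sup_le (iSup₂_le fun S' hS' => ?_) ?_
          · have := hS.1
            have hlt : finrank ℚ S' < n := hn ▸ Submodule.finrank_lt_finrank_of_lt hS'
            refine (ih _ hlt S' (gr_good hS'.le hS) rfl).trans (Submodule.span_mono ?_)
            exact Set.image_mono fun i hi => le_trans hi hS'.le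
          · intro x hx
            have hb := (Basis.ofVectorSpace ℚ (C S : Submodule ℚ ℂ)).span_eq
            have h1 : (⟨x, hx⟩ : (C S : Submodule ℚ ℂ)) ∈
                Submodule.span ℚ (Set.range (Basis.ofVectorSpace ℚ (C S : Submodule ℚ ℂ))) := by
              rw [hb]; trivial
            have h2 := Submodule.mem_map_of_mem (f := (C S).subtype) h1
            rw [Submodule.map_span] at h2
            refine Submodule.span_mono ?_ h2
            rintro _ ⟨_, ⟨j, rfl⟩, rfl⟩
            refine ⟨⟨⟨S, hS⟩, j⟩, le_refl S, ?_⟩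
            simp only [Submodule.subtype_apply, Basis.coe_ofVectorSpace]
            rfl
      exact key _ S hS rfl
    · rw [Submodule.span_le]
      rintro _ ⟨i, hi, rfl⟩
      exact gr_mono hi (hCK _ (hvC i))

end Pool.Agent.Lib.MP_c82530_nt.AE
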