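import Mathlib
import Pool.Agent.Lib.MP_c82530_nt.AE.Stm

set_option autoImplicit false

namespace Pool.Agent.Lib.MP_c82530_nt.AE

open Set Pool.Agent.Lib.MP_c82530_nt Pool.Agent.Lib.MP_c82530_nt.AA Module

/-- the logarithm modulo the algebraic numbers -/
noncomputable def grp_lg (n : ℕ) : ℂ ⧸ KK ⊥ := (KK ⊥).mkQ ((Real.log (n : ℝ) : ℝ) : ℂ)

lemma grp_fact (s : Finset {p : ℕ // p.Prime}) (e : {p : ℕ // p.Prime} → ℕ)
    (i : {p : ℕ // p.Prime}) :
    (∏ p ∈ s, (p : ℕ) ^ (e p)).factorization i = if i ∈ s then e i else 0 := by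
  rw [Nat.factorization_prod (fun p _ => pow_ne_zero _ p.2.ne_zero), Finsupp.finsetSum_apply]
  have h : ∀ p ∈ s, (((p : ℕ) ^ (e p)).factorization (i : ℕ)) = if p = i then e i else 0 := by
    intro p _
    rw [Nat.Prime.factorization_pow p.2, Finsupp.single_apply]
    by_cases hp : p = i
    · rw [if_pos hp, if_pos (by rw [hp]), hp]
    · rw [if_neg hp, if_neg (fun h => hp (Subtype.ext h))]
  rw [Finset.sum_congr rfl h, Finset.sum_ite_eq']

lemma grp_prod_ne (s : Finset {p : ℕ // p.Prime}) (e : {p : ℕ // p.Prime} → ℕ) :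
    ∏ p ∈ s, (p : ℕ) ^ (e p) ≠ 0 :=
  Finset.prod_ne_zero_iff.mpr fun p _ => pow_ne_zero _ p.2.ne_zero

lemma grp_log_prod (s : Finset {p : ℕ // p.Prime}) (e : {p : ℕ // p.Prime} → ℕ) :
    Real.log ((∏ p ∈ s, (p : ℕ) ^ (e p) : ℕ) : ℝ) = ∑ p ∈ s, (e p : ℝ) * Real.log (p : ℕ) := by
  rw [Nat.cast_prod, Real.log_prod]
  · refine Finset.sum_congr rfl fun p _ => ?_
    rw [Nat.cast_pow, Real.log_pow]
  · intro p _
    exact_mod_cast pow_ne_zero _ p.2.ne_zero

lemma grp_linInd : LinearIndependent ℚ (fun p : {p : ℕ // p.Prime} => grp_lg p) := by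
  rw [← LinearIndependent.iff_fractionRing (R := ℤ) (K := ℚ), linearIndependent_iff']
  intro s g hg i hi
  have hA := grp_prod_ne s (fun p => (g p).toNat)
  have hB := grp_prod_ne s (fun p => (- g p).toNat)
  have halg : IsAlgebraic ℚ
      (((Real.log ((∏ p ∈ s, (p : ℕ) ^ (g p).toNat : ℕ) : ℝ) : ℝ) : ℂ) -
        ((Real.log ((∏ p ∈ s, (p : ℕ) ^ (- g p).toNat : ℕ) : ℝ) : ℝ) : ℂ)) := by
    rw [← InK_bot, ← mem_KK, ← Submodule.Quotient.mk_eq_zero, ← hg]
    rw [← Submodule.mkQ_apply]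
    rw [grp_log_prod s (fun p => (g p).toNat), grp_log_prod s (fun p => (- g p).toNat),
      ← Complex.ofReal_sub, ← Finset.sum_sub_distrib, Complex.ofReal_sum, map_sum]
    refine Finset.sum_congr rfl fun p _ => ?_
    rw [grp_lg, ← map_zsmul]
    congr 1
    rw [← sub_mul, zsmul_eq_mul]
    have : ((((g p).toNat : ℕ) : ℝ) - (((- g p).toNat : ℕ) : ℝ)) = ((g p : ℤ) : ℝ) := by
      have := Int.toNat_sub_toNat_neg (g p)
      exact_mod_cast this
    rw [this]
    push_cast
    ring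
  have hAB := log_diff_alg hA hB halg
  have h1 := grp_fact s (fun p => (g p).toNat) i
  have h2 := grp_fact s (fun p => (- g p).toNat) i
  rw [hAB, h2, if_pos hi, if_pos hi] at h1
  omega

/-- the factorization as a finitely supported function on the primes -/
noncomputable def grp_L (s : ℕ) : {p : ℕ // p.Prime} →₀ ℚ :=
  ∑ p ∈ s.primeFactors.attach,
    Finsupp.single (⟨p.1, Nat.prime_of_mem_primeFactors p.2⟩ : {p : ℕ // p.Prime})
      (s.factorization p.1 : ℚ)

lemma grp_L_apply (s : ℕ) (q : {p : ℕ // p.Prime}) : grp_L s q = (s.factorization q : ℚ) := by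
  unfold grp_L
  rw [Finsupp.finsetSum_apply]
  by_cases hq : (q : ℕ) ∈ s.primeFactors
  · rw [Finset.sum_eq_single (⟨q.1, hq⟩ : {x // x ∈ s.primeFactors})]
    · rw [Finsupp.single_apply, if_pos]
      rfl
    · intro b _ hb
      rw [Finsupp.single_apply, if_neg]
      intro h
      apply hb
      apply Subtype.ext
      have h' := congrArg (fun x : {p : ℕ // p.Prime} => (x : ℕ)) h
      exact h'
    · intro h
      exact absurd (Finset.mem_attach _ _) h
  · rw [Finset.sum_eq_zero]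
    · rw [← Nat.support_factorization, Finsupp.notMem_support_iff] at hq
      rw [hq]; simp
    · intro b _
      rw [Finsupp.single_apply, if_neg]
      intro h
      apply hq
      rw [← h]
      exact b.2

lemma grp_comb (s : ℕ) :
    Finsupp.linearCombination ℚ (fun p : {p : ℕ // p.Prime} => grp_lg p) (grp_L s) = grp_lg s := by
  unfold grp_L
  rw [map_sum]
  have h : ∀ p ∈ s.primeFactors.attach,
      Finsupp.linearCombination ℚ (fun p : {p : ℕ // p.Prime} => grp_lg p)
        (Finsupp.single (⟨p.1, Nat.prime_of_mem_primeFactors p.2⟩ : {p : ℕ // p.Prime})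
          (s.factorization p.1 : ℚ)) = (fun q : ℕ => (s.factorization q : ℚ) • grp_lg q) p.1 := by
    intro p _
    rw [Finsupp.linearCombination_single]
  rw [Finset.sum_congr rfl h, Finset.sum_attach s.primeFactors
    (fun q : ℕ => (s.factorization q : ℚ) • grp_lg q)]
  unfold grp_lg
  rw [Real.log_nat_eq_sum_factorization s, Finsupp.sum, Nat.support_factorization,
    Complex.ofReal_sum, map_sum]
  refine Finset.sum_congr rfl fun p _ => ?_
  rw [← map_smul]
  congr 1
  rw [Rat.smul_def]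
  push_cast
  ring

lemma grp_fin {ι V : Type*} [AddCommGroup V] [Module ℚ V] (v : ι → V) (S : Finset V)
    (hS : ∀ x ∈ S, x ∈ Submodule.span ℚ (range v)) :
    ∃ t : Finset ι, ∀ x ∈ S, x ∈ Submodule.span ℚ (v '' (t : Set ι)) := by
  classical
  have h : ∀ x : V, ∃ t : Finset ι, x ∈ S → x ∈ Submodule.span ℚ (v '' (t : Set ι)) := by
    intro x
    by_cases hx : x ∈ S
    · obtain ⟨l, hl⟩ := Finsupp.mem_span_range_iff_exists_finsupp.mp (hS x hx)
      refine ⟨l.support, fun _ => ?_⟩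
      rw [← hl, Finsupp.sum]
      exact Submodule.sum_mem _ fun i hi => Submodule.smul_mem _ _
        (Submodule.subset_span ⟨i, hi, rfl⟩)
    · exact ⟨∅, fun h => absurd h hx⟩
  choose t ht using h
  refine ⟨S.biUnion t, fun x hx => Submodule.span_mono (image_mono ?_) (ht x hx)⟩
  intro i hi
  rw [Finset.mem_coe, Finset.mem_biUnion]
  exact ⟨x, hx, hi⟩

theorem p_grp (hzs : S_zs) : S_grp := by
  classical
  intro C hC
  have := hC
  set v : {p : ℕ // p.Prime} → ℂ ⧸ KK ⊥ := fun p => grp_lg p with hv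
  set Cb : Submodule ℚ (ℂ ⧸ KK ⊥) := C.map (KK ⊥).mkQ with hCb
  have : FiniteDimensional ℚ Cb := by rw [hCb]; infer_instance
  obtain ⟨S, hS⟩ : (Cb ⊓ Submodule.span ℚ (range v)).FG := by
    have : FiniteDimensional ℚ ((Cb ⊓ Submodule.span ℚ (range v) : Submodule ℚ (ℂ ⧸ KK ⊥))) :=
      Submodule.finiteDimensional_of_le inf_le_left
    exact Module.Finite.iff_fg.mp this
  obtain ⟨t, ht⟩ := grp_fin v S (fun x hx => by
    have h1 : x ∈ Cb ⊓ Submodule.span ℚ (range v) := by
      rw [← hS]; exact Submodule.subset_span hx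
    exact h1.2)
  have hN : Cb ⊓ Submodule.span ℚ (range v) ≤ Submodule.span ℚ (v '' (t : Set _)) := by
    rw [← hS, Submodule.span_le]
    exact fun x hx => ht x hx
  refine ⟨ZP (t.image Subtype.val), fun s₀ Y hY => ?_⟩
  -- the exponents outside `t` agree
  have key : ∀ s ∈ Y, ∀ s' ∈ Y, ∀ p : {p : ℕ // p.Prime}, p ∉ t →
      s.factorization p = s'.factorization p := by
    intro s hs s' hs' p hp
    have h1 : ((Real.log (s : ℝ) : ℝ) : ℂ) - ((Real.log (s' : ℝ) : ℝ) : ℂ) ∈ C ⊔ KK ⊥ := by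
      have := Submodule.sub_mem _ (hY s hs).2 (hY s' hs').2
      have e : ((Real.log (s : ℝ) : ℝ) : ℂ) - ((Real.log (s' : ℝ) : ℝ) : ℂ) =
        ((Real.log (s : ℝ) : ℝ) : ℂ) - ((Real.log (s₀ : ℝ) : ℝ) : ℂ) -
          (((Real.log (s' : ℝ) : ℝ) : ℂ) - ((Real.log (s₀ : ℝ) : ℝ) : ℂ)) := by ring
      rw [e]; exact this
    have h2 : grp_lg s - grp_lg s' ∈ Cb := by
      obtain ⟨c, hc, k, hk, hck⟩ := Submodule.mem_sup.mp h1
      refine ⟨c, hc, ?_⟩
      unfold grp_lg
      rw [← map_sub, ← hck, map_add]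
      have : (KK ⊥).mkQ k = 0 := by
        rw [Submodule.mkQ_apply, Submodule.Quotient.mk_eq_zero]; exact hk
      rw [this, add_zero]
    have h3 : Finsupp.linearCombination ℚ v (grp_L s - grp_L s') = grp_lg s - grp_lg s' := by
      rw [map_sub, grp_comb, grp_comb]
    have h4 : grp_lg s - grp_lg s' ∈ Submodule.span ℚ (range v) := by
      rw [← h3, ← Finsupp.range_linearCombination]
      exact ⟨_, rfl⟩
    have h5 := hN ⟨h2, h4⟩
    rw [Finsupp.mem_span_image_iff_linearCombination] at h5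
    obtain ⟨l, hl, hl2⟩ := h5
    have h6 : grp_L s - grp_L s' = l := by
      have hinj : Function.Injective (Finsupp.linearCombination ℚ v) := grp_linInd
      exact hinj (by rw [h3, hl2])
    have h7 : l p = 0 := by
      by_contra hne
      have : p ∈ (t : Set _) := (Finsupp.mem_supported ℚ l).mp hl (by
        rw [Finset.mem_coe, Finsupp.mem_support_iff]; exact hne)
      exact hp this
    rw [← h6, Finsupp.sub_apply, grp_L_apply, grp_L_apply, sub_eq_zero] at h7
    exact_mod_cast h7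
  set π : ℕ → ℕ := fun s => ∏ p ∈ t, (p : ℕ) ^ (s.factorization p) with hπ
  have hπ0 : ∀ s, π s ≠ 0 := fun s => grp_prod_ne t _
  have hπle : ∀ s ∈ Y, π s ≤ s := by
    intro s hs
    apply Nat.le_of_dvd (Nat.pos_of_ne_zero (hY s hs).1)
    rw [← Nat.factorization_le_iff_dvd (hπ0 s) (hY s hs).1]
    intro q
    by_cases hq : q.Prime
    · have := grp_fact t (fun p => s.factorization p) ⟨q, hq⟩
      simp only at this
      rw [hπ]
      simp only
      rw [this]
      split_ifs <;> simp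
    · rw [Nat.factorization_eq_zero_of_not_prime _ hq]
      exact Nat.zero_le _
  have hinj : Set.InjOn π (Y : Set ℕ) := by
    intro s hs s' hs' hss
    refine Nat.eq_of_factorization_eq (hY s hs).1 (hY s' hs').1 fun q => ?_
    by_cases hq : q.Prime
    · by_cases hqt : (⟨q, hq⟩ : {p : ℕ // p.Prime}) ∈ t
      · have e1 := grp_fact t (fun p => s.factorization p) ⟨q, hq⟩
        have e2 := grp_fact t (fun p => s'.factorization p) ⟨q, hq⟩
        rw [if_pos hqt] at e1 e2
        simp only [hπ] at hss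
        rw [hss, e2] at e1
        exact e1.symm
      · exact key s hs s' hs' ⟨q, hq⟩ hqt
    · rw [Nat.factorization_eq_zero_of_not_prime _ hq, Nat.factorization_eq_zero_of_not_prime _ hq]
  have hfac : ∀ m ∈ Y.image π, m ∈ Nat.factoredNumbers (t.image Subtype.val) := by
    intro m hm
    obtain ⟨s, -, rfl⟩ := Finset.mem_image.mp hm
    rw [Nat.mem_factoredNumbers]
    refine ⟨hπ0 s, fun p hp => ?_⟩
    have hpp := Nat.prime_of_mem_primeFactorsList hp
    have hpd := Nat.dvd_of_mem_primeFactorsList hp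
    obtain ⟨a, ha, hpa⟩ := (hpp.prime.dvd_finsetProd_iff _).mp hpd
    have := (Nat.prime_dvd_prime_iff_eq hpp a.2).mp (hpp.dvd_of_dvd_pow hpa)
    rw [Finset.mem_image]
    exact ⟨a, ha, this.symm⟩
  calc ∑ s ∈ Y, (s : ℝ)⁻¹ ≤ ∑ s ∈ Y, ((π s : ℕ) : ℝ)⁻¹ := by
        refine Finset.sum_le_sum fun s hs => ?_
        apply inv_anti₀
        · exact_mod_cast Nat.pos_of_ne_zero (hπ0 s)
        · exact_mod_cast hπle s hs
    _ = ∑ m ∈ Y.image π, ((m : ℕ) : ℝ)⁻¹ := by
        rw [Finset.sum_image hinj]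
    _ ≤ ZP (t.image Subtype.val) := by
        refine hzs _ ?_ _ hfac
        intro p hp
        obtain ⟨a, -, rfl⟩ := Finset.mem_image.mp hp
        exact a.2

end Pool.Agent.Lib.MP_c82530_nt.AE
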